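import Pool.Agent.Helper32K9.RD.St

/-!
# The zeros in a union of cells
-/

set_option autoImplicit false

namespace Pool.Agent.Helper32K9.RD

open Complex Metric MeasureTheory Set Filter Topology DH31
open Pool.Agent.W170.MV (C1 cells)

namespace AsmL

lemma KN_two' (D δ T : ℝ) : 2 ≤ KN D δ T := by unfold KN; omega

lemma QQ_nonneg {T H : ℝ} (hT : 0 ≤ T) (hH : 0 ≤ H) (σ : ℝ) : 0 ≤ QQ T H σ := by
  unfold QQ; positivity

lemma zeros_mono {σ T : ℝ} (hσ : 1 / 2 ≤ σ) : zeros σ T ⊆ zeros (1 / 2) T := by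
  rintro s ⟨h1, h2, h3, h4⟩
  exact ⟨h1, by linarith, h3, h4⟩

/-- the cells of the moved points -/
lemma cells_le {H : ℝ} (hH : 1 ≤ H) (J : Finset ℕ) (S : Finset ℝ)
    (h : ∀ t ∈ S, ∃ g : ℝ, 0 ≤ g ∧ g ≤ t ∧ t ≤ g + 1 / 2 ∧ ⌊g / H⌋₊ ∈ J) :
    cells (2 * H) S ≤ 2 * J.card := by
  classical
  unfold cells
  have hsub : S.image (fun t => ⌊t / (2 * H)⌋₊) ⊆
      J.image (fun k => k / 2) ∪ J.image (fun k => k / 2 + 1) := by
    intro m hm
    rw [Finset.mem_image] at hm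
    obtain ⟨t, ht, rfl⟩ := hm
    obtain ⟨g, hg0, hg1, hg2, hgJ⟩ := h t ht
    set k := ⌊g / H⌋₊ with hk
    have hHpos : 0 < H := by linarith
    have h1 : (k : ℝ) ≤ g / H := Nat.floor_le (by positivity)
    have h2 : g / H < k + 1 := Nat.lt_floor_add_one _
    rw [le_div_iff₀ hHpos] at h1
    rw [div_lt_iff₀ hHpos] at h2
    have ht0 : 0 ≤ t := by linarith
    have h3 : t < (k + 2) * H := by nlinarith
    have h4 : (k : ℝ) * H ≤ t := by linarith
    have hlow : k / 2 ≤ ⌊t / (2 * H)⌋₊ := by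
      apply Nat.le_floor
      rw [le_div_iff₀ (by positivity)]
      have : ((k / 2 : ℕ) : ℝ) ≤ (k : ℝ) / 2 := Nat.cast_div_le
      nlinarith
    have hup : ⌊t / (2 * H)⌋₊ < k / 2 + 2 := by
      rw [Nat.floor_lt (by positivity), div_lt_iff₀ (by positivity)]
      have h5 : k ≤ 2 * (k / 2) + 1 := by omega
      have h6 : (k : ℝ) ≤ 2 * ((k / 2 : ℕ) : ℝ) + 1 := by exact_mod_cast h5
      push_cast
      nlinarith
    rw [Finset.mem_union, Finset.mem_image, Finset.mem_image]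
    have : ⌊t / (2 * H)⌋₊ = k / 2 ∨ ⌊t / (2 * H)⌋₊ = k / 2 + 1 := by omega
    rcases this with h7 | h7
    · exact Or.inl ⟨k, hgJ, h7.symm⟩
    · exact Or.inr ⟨k, hgJ, h7.symm⟩
  calc (S.image (fun t => ⌊t / (2 * H)⌋₊)).card ≤
      (J.image (fun k => k / 2) ∪ J.image (fun k => k / 2 + 1)).card := Finset.card_le_card hsub
    _ ≤ (J.image (fun k => k / 2)).card + (J.image (fun k => k / 2 + 1)).card :=
        Finset.card_union_le _ _
    _ ≤ J.card + J.card := add_le_add Finset.card_image_le Finset.card_image_le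
    _ = _ := by ring

/-- points in windows of one class mod 3 -/
lemma class_le {B H : ℝ} (hH : 1 ≤ H) (J U : Finset ℕ) (i : ℕ) (t g : ℕ → ℝ) (P : ℝ → Prop)
    (hU : ∀ n ∈ U, n % 3 = i ∧ (n : ℝ) ≤ g n ∧ g n ≤ n + 1 ∧ g n ≤ t n ∧ t n ≤ g n + 1 / 2 ∧
      ⌊g n / H⌋₊ ∈ J ∧ P (t n))
    (hB : ∀ S : Finset ℝ, (∀ u ∈ S, ∃ n ∈ U, t n = u) →
      (∀ u ∈ S, ∀ v ∈ S, u ≠ v → 1 ≤ |u - v|) → (∀ u ∈ S, P u) → cells (2 * H) S ≤ 2 * J.card →
      (S.card : ℝ) ≤ B) :
    (U.card : ℝ) ≤ B := by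
  classical
  have hsep : ∀ n ∈ U, ∀ m ∈ U, n < m → 1 ≤ t m - t n := by
    intro n hn m hm hnm
    obtain ⟨a1, a2, a3, a4, a5, -, -⟩ := hU n hn
    obtain ⟨b1, b2, b3, b4, b5, -, -⟩ := hU m hm
    have h1 : n + 3 ≤ m := by omega
    have h2 : (n : ℝ) + 3 ≤ m := by exact_mod_cast h1
    linarith
  have hinj : Set.InjOn t (U : Set ℕ) := by
    intro n hn m hm hnm
    by_contra hne
    rcases lt_or_gt_of_ne hne with h | h
    · have := hsep n hn m hm h
      rw [hnm] at this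
      linarith
    · have := hsep m hm n hn h
      rw [hnm] at this
      linarith
  have hcard : (U.image t).card = U.card := Finset.card_image_of_injOn hinj
  rw [← hcard]
  apply hB
  · intro u hu
    obtain ⟨n, hn, rfl⟩ := Finset.mem_image.1 hu
    exact ⟨n, hn, rfl⟩
  · intro u hu v hv huv
    obtain ⟨n, hn, rfl⟩ := Finset.mem_image.1 hu
    obtain ⟨m, hm, rfl⟩ := Finset.mem_image.1 hv
    have hne : n ≠ m := fun h => huv (by rw [h])
    rcases lt_or_gt_of_ne hne with h | h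
    · have := hsep n hn m hm h
      rw [abs_sub_comm]
      exact this.trans (le_abs_self _)
    · have := hsep m hm n hn h
      exact this.trans (le_abs_self _)
  · intro u hu
    obtain ⟨n, hn, rfl⟩ := Finset.mem_image.1 hu
    exact (hU n hn).2.2.2.2.2.2
  · apply cells_le hH
    intro u hu
    obtain ⟨n, hn, rfl⟩ := Finset.mem_image.1 hu
    obtain ⟨a1, a2, a3, a4, a5, a6, -⟩ := hU n hn
    exact ⟨g n, le_trans (Nat.cast_nonneg n) a2, a4, a5, a6⟩

end AsmL

open AsmL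

theorem asm (hdet : S_DET) (hcli : S_CLI) (hclii : S_CLII) : S_ASM := by
  classical
  intro ε hε
  set e : ℝ := min ε 1 / 30 with he
  have hepos : 0 < e := by positivity
  have he1 : e ≤ 1 / 30 := by
    rw [he]
    have := min_le_right ε 1
    linarith
  have heε : 30 * e ≤ ε := by
    rw [he]
    have := min_le_left ε 1
    linarith
  set D : ℝ := 20 / e ^ 2 with hD
  have hDbig : 20 ≤ D := by
    rw [hD, le_div_iff₀ (by positivity)]
    nlinarith
  obtain ⟨T1, hT1, hdet'⟩ := hdet e D e e hepos (by linarith) le_rfl hepos (by linarith) hepos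
    (by linarith)
  obtain ⟨C1, T2, hC1, hT2, hcli'⟩ := hcli e D e e hepos (by linarith) le_rfl hepos (by linarith)
    hepos (by linarith)
  obtain ⟨C2, T3, hC2, hT3, hclii'⟩ := hclii D e e (by linarith) hepos (by linarith) hepos
    (by linarith)
  obtain ⟨C0, hC0, hwc⟩ := windows_to_count
  set d : ℝ := (⌈D⌉₊ : ℝ) + 4 with hd
  have hdpos : 0 < d := by positivity
  refine ⟨C0 + C0 * (1 / e) * (d + C2 * (1 / e) + 6 * C1 + 2), max (max T1 T2) (max T3 3),
    by positivity, ?_⟩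
  intro T hT σ hσ1 hσ2 H hH J
  have hTT1 : T1 ≤ T := le_trans (le_trans (le_max_left _ _) (le_max_left _ _)) hT
  have hTT2 : T2 ≤ T := le_trans (le_trans (le_max_right _ _) (le_max_left _ _)) hT
  have hTT3 : T3 ≤ T := le_trans (le_trans (le_max_left _ _) (le_max_right _ _)) hT
  have hT3' : 3 ≤ T := le_trans (le_trans (le_max_right _ _) (le_max_right _ _)) hT
  have hTpos : 0 < T := by linarith
  have hT1' : 1 ≤ T := by linarith
  have hH1 : 1 ≤ H := by
    refine le_trans ?_ hH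
    rw [Real.one_le_sqrt]
    exact hT1'
  set A : Set ℂ := {ρ : ℂ | ρ ∈ zeros σ T ∧ ⌊ρ.im / H⌋₊ ∈ J} with hA
  have hAz : A ⊆ zeros (1 / 2) T := fun ρ hρ => zeros_mono hσ1 hρ.1
  set Q := QQ T H σ with hQ
  have hQ0 : 0 ≤ Q := QQ_nonneg hTpos.le (by linarith) σ
  set P : ℝ := T ^ e with hP
  have hP1 : 1 ≤ P := Real.one_le_rpow hT1' hepos.le
  have hPpos : 0 < P := by linarith
  set B : ℝ := T ^ (2 - 2 * σ) with hB
  have hB1 : 1 ≤ B := Real.one_le_rpow hT1' (by linarith)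
  have hlog : Real.log T ≤ 1 / e * P := by
    have := Real.log_le_rpow_div hTpos.le hepos
    rw [hP]
    calc Real.log T ≤ T ^ e / e := this
      _ = _ := by ring
  have hlog0 : 0 ≤ Real.log T := Real.log_nonneg hT1'
  have hPow : P ^ 30 ≤ T ^ ε := by
    rw [hP, ← Real.rpow_natCast, ← Real.rpow_mul hTpos.le]
    apply Real.rpow_le_rpow_of_exponent_le hT1'
    push_cast
    linarith
  have h2B : T ^ (2 * (1 - σ)) = B := by rw [hB]; congr 1; ring
  rw [h2B]
  set M : ℝ := B + J.card * Q with hM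
  have hJQ : 0 ≤ (J.card : ℝ) * Q := by positivity
  have hM1 : 1 ≤ M := by rw [hM]; linarith
  have hP30 : 1 ≤ P ^ 30 := one_le_pow₀ hP1
  -- reduction to windows
  suffices hmain : ∃ S : Finset ℕ, (∀ ρ ∈ A, 3 < ρ.im → ∃ n ∈ S, (n : ℝ) < ρ.im ∧ ρ.im ≤ n + 1) ∧
      (S.card : ℝ) ≤ (d + C2 * (1 / e) + 6 * C1 + 2) * P ^ 13 * M by
    obtain ⟨S, hS1, hS2⟩ := hmain
    have h1 := hwc T hT3' A hAz S hS1
    set c : ℝ := d + C2 * (1 / e) + 6 * C1 + 2 with hc
    have hc0 : 0 ≤ c := by positivity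
    calc (cnt A : ℝ) ≤ C0 + (S.card : ℝ) * (C0 * Real.log T) := h1
      _ ≤ C0 + (c * P ^ 13 * M) * (C0 * (1 / e * P)) := by gcongr
      _ = C0 + C0 * (1 / e) * c * (P ^ 14 * M) := by ring
      _ ≤ C0 * (P ^ 30 * M) + C0 * (1 / e) * c * (P ^ 30 * M) := by
          have h2 : P ^ 14 ≤ P ^ 30 := pow_le_pow_right₀ hP1 (by norm_num)
          have h3 : 1 ≤ P ^ 30 * M := by nlinarith
          have h4 : C0 * 1 ≤ C0 * (P ^ 30 * M) := by gcongr
          have h5 : C0 * (1 / e) * c * (P ^ 14 * M) ≤ C0 * (1 / e) * c * (P ^ 30 * M) := by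
            gcongr
          linarith
      _ = (C0 + C0 * (1 / e) * c) * P ^ 30 * M := by ring
      _ ≤ _ := by gcongr
  by_cases hσ : σ < 1 / 2 + 2 * e
  · -- trivial case
    refine ⟨Finset.range (⌊T⌋₊ + 1), ?_, ?_⟩
    · intro ρ hρ h3
      have h4 : ρ.im ≤ T := hρ.1.2.2.2
      have h5 : 0 < ⌈ρ.im⌉₊ := Nat.ceil_pos.2 (by linarith)
      refine ⟨⌈ρ.im⌉₊ - 1, ?_, ?_, ?_⟩
      · rw [Finset.mem_range]
        have h6 : (⌈ρ.im⌉₊ - 1 : ℕ) ≤ ⌊T⌋₊ := by
          apply Nat.le_floor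
          have h7 := (Nat.ceil_lt_add_one (show 0 ≤ ρ.im by linarith)).le
          rw [Nat.cast_sub (by omega)]
          push_cast
          linarith
        omega
      · have h7 := (Nat.ceil_lt_add_one (show 0 ≤ ρ.im by linarith))
        rw [Nat.cast_sub (by omega)]
        push_cast
        linarith
      · have h7 := Nat.le_ceil ρ.im
        rw [Nat.cast_sub (by omega)]
        push_cast
        linarith
    · rw [Finset.card_range]
      push_cast
      have h1 : (⌊T⌋₊ : ℝ) ≤ T := Nat.floor_le hTpos.le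
      have h2 : T ≤ B * P ^ 4 := by
        rw [hB, hP, ← Real.rpow_natCast, ← Real.rpow_mul hTpos.le, ← Real.rpow_add hTpos]
        nth_rw 1 [← Real.rpow_one T]
        apply Real.rpow_le_rpow_of_exponent_le hT1'
        push_cast
        linarith
      have h3 : P ^ 4 ≤ P ^ 13 := pow_le_pow_right₀ hP1 (by norm_num)
      have h4 : B ≤ M := by rw [hM]; linarith
      calc (⌊T⌋₊ : ℝ) + 1 ≤ 2 * T := by linarith
        _ ≤ 2 * (B * P ^ 4) := by gcongr
        _ ≤ 2 * (M * P ^ 13) := by gcongr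
        _ = 2 * P ^ 13 * M := by ring
        _ ≤ _ := by
            have : (2 : ℝ) ≤ d + C2 * (1 / e) + 6 * C1 + 2 := by
              have : 0 ≤ d + C2 * (1 / e) + 6 * C1 := by positivity
              linarith
            gcongr
  push Not at hσ
  -- windows with a high zero
  set U : Finset ℕ := (Finset.range (⌊T⌋₊ + 1)).filter (fun n : ℕ => ∃ ρ ∈ A, D + 3 ≤ ρ.im ∧
    (n : ℝ) < ρ.im ∧ ρ.im ≤ n + 1) with hU
  have hex : ∀ n : ℕ, ∃ z : ℂ, n ∈ U → z ∈ A ∧ D + 3 ≤ z.im ∧ (n : ℝ) < z.im ∧ z.im ≤ n + 1 := by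
    intro n
    by_cases hn : n ∈ U
    · rw [hU, Finset.mem_filter] at hn
      obtain ⟨-, ρ, h1, h2, h3, h4⟩ := hn
      exact ⟨ρ, fun _ => ⟨h1, h2, h3, h4⟩⟩
    · exact ⟨0, fun h => absurd h hn⟩
  choose z hz using hex
  set K := KN D e T with hK
  have hK2 : 2 ≤ K := KN_two' D e T
  have hK2r : (2 : ℝ) ≤ K := by exact_mod_cast hK2
  have hKinv : 1 / (K : ℝ) ≤ 1 / 2 := one_div_le_one_div_of_le (by norm_num) hK2r
  set V : ℝ := T ^ ((σ - 1 / 2) / 2 - e) with hV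
  set R : ℝ := 1 / 2 + D - e with hR
  set U2 : Finset ℕ := U.filter (fun n => ∀ t : ℝ, (z n).im ≤ t → t ≤ (z n).im + 1 / (K : ℝ) →
    V ≤ cmean (XN e T) D R t) with hU2
  set U1 : Finset ℕ := U.filter (fun n => ¬ ∀ t : ℝ, (z n).im ≤ t → t ≤ (z n).im + 1 / (K : ℝ) →
    V ≤ cmean (XN e T) D R t) with hU1
  have hUcard : U.card = U2.card + U1.card := by
    rw [hU2, hU1]
    exact (Finset.card_filter_add_card_filter_not _).symm
  -- class II
  have hII : (U2.card : ℝ) ≤ C2 * Real.log T * T ^ (2 - 2 * σ + 4 * e + 4 * e) := by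
    apply hclii' T hTT3 σ hσ1 hσ2 U2 (fun n => (z n).im)
    intro n hn
    rw [hU2, Finset.mem_filter] at hn
    obtain ⟨h1, h2, h3, h4⟩ := hz n hn.1
    exact ⟨h3.le, h4, h2, h1.1.2.2.2, hn.2⟩
  have hII' : (U2.card : ℝ) ≤ C2 * (1 / e) * P ^ 13 * M := by
    have h1 : T ^ (2 - 2 * σ + 4 * e + 4 * e) = B * P ^ 8 := by
      rw [hB, hP, ← Real.rpow_natCast, ← Real.rpow_mul hTpos.le, ← Real.rpow_add hTpos]
      congr 1
      push_cast
      ring
    have h2 : P ^ 9 ≤ P ^ 13 := pow_le_pow_right₀ hP1 (by norm_num)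
    have h4 : B ≤ M := by rw [hM]; linarith
    calc (U2.card : ℝ) ≤ C2 * Real.log T * T ^ (2 - 2 * σ + 4 * e + 4 * e) := hII
      _ = C2 * Real.log T * (B * P ^ 8) := by rw [h1]
      _ ≤ C2 * (1 / e * P) * (B * P ^ 8) := by gcongr
      _ = C2 * (1 / e) * P ^ 9 * B := by ring
      _ ≤ _ := by gcongr
  -- class I
  have hexI : ∀ n : ℕ, ∃ t : ℝ, n ∈ U1 → (z n).im ≤ t ∧ t ≤ (z n).im + 1 / (K : ℝ) ∧
      ∃ k < K, 1 / (4 * (K : ℝ)) ≤
      ‖∑ n ∈ Finset.Ioc (XN e T) (ZN e T), bc D σ k (XN e T) n * (n : ℂ) ^ (-(t : ℂ) * I)‖ := by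
    intro n
    by_cases hn : n ∈ U1
    · have hn' := hn
      rw [hU1, Finset.mem_filter] at hn'
      obtain ⟨hnU, hn2⟩ := hn'
      push Not at hn2
      obtain ⟨t, ht1, ht2, ht3⟩ := hn2
      obtain ⟨h1, h2, h3, h4⟩ := hz n hnU
      have hre : (z n).re ≤ 1 := by
        by_contra hcon
        push Not at hcon
        exact riemannZeta_ne_zero_of_one_le_re hcon.le h1.1.1
      have h5 := hdet' T hTT1 σ hσ hσ2 (z n) h1.1.1 h1.1.2.1 hre h2 t ht1 ht2
      rcases h5 with h5 | h5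
      · exact absurd h5 (not_le.2 ht3)
      · exact ⟨t, fun _ => ⟨ht1, ht2, h5⟩⟩
    · exact ⟨0, fun h => absurd h hn⟩
  choose t ht using hexI
  have hI : ∀ i < 3, ((U1.filter (fun n => n % 3 = i)).card : ℝ) ≤
      C1 * T ^ (13 * e) * (B + 2 * J.card * Q) := by
    intro i _
    refine class_le (H := H) hH1 J (U1.filter (fun n => n % 3 = i)) i t (fun n => (z n).im)
      (fun u => ∃ k < K, 1 / (4 * (K : ℝ)) ≤
      ‖∑ n ∈ Finset.Ioc (XN e T) (ZN e T), bc D σ k (XN e T) n * (n : ℂ) ^ (-(u : ℂ) * I)‖) ?_ ?_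
    · intro n hn
      rw [Finset.mem_filter] at hn
      have hnU : n ∈ U := by
        have := hn.1
        rw [hU1, Finset.mem_filter] at this
        exact this.1
      obtain ⟨h1, h2, h3, h4⟩ := hz n hnU
      obtain ⟨h5, h6, h7⟩ := ht n hn.1
      exact ⟨hn.2, h3.le, h4, h5, by linarith, h1.2, h7⟩
    · intro S hS1 hS2 hS3 hS4
      have h1 := hcli' T hTT2 σ hσ1 hσ2 H hH S ?_ hS2 hS3
      · refine h1.trans ?_
        have h2 : (cells (2 * H) S : ℝ) ≤ 2 * J.card := by exact_mod_cast hS4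
        gcongr
      · intro u hu
        obtain ⟨n, hn, rfl⟩ := hS1 u hu
        rw [Finset.mem_filter] at hn
        have hnU : n ∈ U := by
          have := hn.1
          rw [hU1, Finset.mem_filter] at this
          exact this.1
        obtain ⟨h1, h2, h3, h4⟩ := hz n hnU
        obtain ⟨h5, h6, h7⟩ := ht n hn.1
        have h8 : (z n).im ≤ T := h1.1.2.2.2
        constructor
        · linarith
        · linarith
  have hI3 : (U1.card : ℝ) ≤ 3 * (C1 * T ^ (13 * e) * (B + 2 * J.card * Q)) := by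
    have h1 : U1.card ≤ ∑ i ∈ Finset.range 3, (U1.filter (fun n => n % 3 = i)).card := by
      rw [Finset.card_eq_sum_card_fiberwise (f := fun n => n % 3) (t := Finset.range 3)]
      intro n _
      simp only [Finset.coe_range, Set.mem_Iio]
      omega
    have h2 : (U1.card : ℝ) ≤ ∑ i ∈ Finset.range 3,
        ((U1.filter (fun n => n % 3 = i)).card : ℝ) := by exact_mod_cast h1
    refine h2.trans ?_
    calc _ ≤ ∑ i ∈ Finset.range 3, (C1 * T ^ (13 * e) * (B + 2 * J.card * Q)) :=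
          Finset.sum_le_sum fun i hi => hI i (Finset.mem_range.1 hi)
      _ = _ := by rw [Finset.sum_const, Finset.card_range, nsmul_eq_mul]; norm_num
  have hI' : (U1.card : ℝ) ≤ 6 * C1 * P ^ 13 * M := by
    have h1 : T ^ (13 * e) = P ^ 13 := by
      rw [hP, ← Real.rpow_natCast, ← Real.rpow_mul hTpos.le]
      congr 1
      push_cast
      ring
    rw [h1] at hI3
    calc (U1.card : ℝ) ≤ 3 * (C1 * P ^ 13 * (B + 2 * J.card * Q)) := hI3
      _ ≤ 3 * (C1 * P ^ 13 * (2 * M)) := by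
          have : B + 2 * J.card * Q ≤ 2 * M := by rw [hM]; linarith
          gcongr
      _ = _ := by ring
  -- conclusion
  refine ⟨Finset.range (⌈D⌉₊ + 4) ∪ U, ?_, ?_⟩
  · intro ρ hρ h3
    have h4 : ρ.im ≤ T := hρ.1.2.2.2
    have h5 : 0 < ⌈ρ.im⌉₊ := Nat.ceil_pos.2 (by linarith)
    have h7 := (Nat.ceil_lt_add_one (show 0 ≤ ρ.im by linarith))
    have h7' := Nat.le_ceil ρ.im
    have hc : ((⌈ρ.im⌉₊ - 1 : ℕ) : ℝ) = (⌈ρ.im⌉₊ : ℝ) - 1 := by
      rw [Nat.cast_sub (by omega)]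
      push_cast
      ring
    refine ⟨⌈ρ.im⌉₊ - 1, ?_, by rw [hc]; linarith, by rw [hc]; linarith⟩
    rw [Finset.mem_union]
    by_cases hh : D + 3 ≤ ρ.im
    · right
      rw [hU, Finset.mem_filter, Finset.mem_range]
      refine ⟨?_, ρ, hρ, hh, by rw [hc]; linarith, by rw [hc]; linarith⟩
      have h6 : (⌈ρ.im⌉₊ - 1 : ℕ) ≤ ⌊T⌋₊ := by
        apply Nat.le_floor
        rw [hc]
        linarith
      omega
    · left
      push Not at hh
      rw [Finset.mem_range]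
      have h8 : ((⌈ρ.im⌉₊ - 1 : ℕ) : ℝ) < ((⌈D⌉₊ + 4 : ℕ) : ℝ) := by
        rw [hc]
        push_cast
        have := Nat.le_ceil D
        linarith
      exact_mod_cast h8
  · have h1 : ((Finset.range (⌈D⌉₊ + 4) ∪ U).card : ℝ) ≤ d + (U2.card + U1.card) := by
      have h2 : (Finset.range (⌈D⌉₊ + 4) ∪ U).card ≤ (⌈D⌉₊ + 4) + (U2.card + U1.card) := by
        calc _ ≤ (Finset.range (⌈D⌉₊ + 4)).card + U.card := Finset.card_union_le _ _
          _ = _ := by rw [Finset.card_range, hUcard]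
      have h3 : ((Finset.range (⌈D⌉₊ + 4) ∪ U).card : ℝ) ≤
          (((⌈D⌉₊ + 4) + (U2.card + U1.card) : ℕ) : ℝ) := by exact_mod_cast h2
      refine h3.trans (le_of_eq ?_)
      rw [hd]
      push_cast
      ring
    have hP13 : 1 ≤ P ^ 13 := one_le_pow₀ hP1
    have h4 : 1 ≤ P ^ 13 * M := by nlinarith
    have h5 : 0 ≤ P ^ 13 * M := by linarith
    calc _ ≤ d + (U2.card + U1.card) := h1
      _ ≤ d * (P ^ 13 * M) + (C2 * (1 / e) * P ^ 13 * M + 6 * C1 * P ^ 13 * M) := by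
          have : d * 1 ≤ d * (P ^ 13 * M) := by gcongr
          linarith
      _ ≤ _ := by
          have : (d + C2 * (1 / e) + 6 * C1 + 2) * P ^ 13 * M =
            d * (P ^ 13 * M) + (C2 * (1 / e) * P ^ 13 * M + 6 * C1 * P ^ 13 * M) +
              2 * (P ^ 13 * M) := by ring
          rw [this]
          linarith

end Pool.Agent.Helper32K9.RD
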