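import Pool.Agent.Helper32K9.RD.St

/-!
# [CAU] the tail of the Taylor series, with the mean over the circle
-/

set_option autoImplicit false

namespace Pool.Agent.Helper32K9.RD

open Complex Metric MeasureTheory Set Filter Topology DH31

namespace CauL

lemma tc_norm_le_mean {f : ℂ → ℂ} {c : ℂ} {s R : ℝ} (hs : 0 < s) (hsR : s < R)
    (hf : DifferentiableOn ℂ f (ball c R)) (n : ℕ) :
    ‖tc f c n‖ ≤ ((2 * Real.pi)⁻¹ * ∫ θ in (0 : ℝ)..(2 * Real.pi), ‖f (circleMap c s θ)‖) /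
      s ^ n := by
  have hd : DifferentiableOn ℂ f (closedBall c (⟨s, hs.le⟩ : NNReal)) :=
    hf.mono (closedBall_subset_ball hsR)
  have hp := hd.hasFPowerSeriesOnBall (R := ⟨s, hs.le⟩) (by exact_mod_cast hs)
  have h1 := hp.factorial_smul (1 : ℂ) n
  have h2 := norm_cauchyPowerSeries_le f c s n
  have hfac : (0 : ℝ) < n.factorial := by positivity
  have h3 : ‖iteratedDeriv n f c‖ ≤ n.factorial *
      (((2 * Real.pi)⁻¹ * ∫ θ in (0 : ℝ)..(2 * Real.pi), ‖f (circleMap c s θ)‖) * |s|⁻¹ ^ n) := by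
    rw [iteratedDeriv_eq_iteratedFDeriv, ← h1, nsmul_eq_mul, norm_mul, Complex.norm_natCast]
    refine mul_le_mul_of_nonneg_left ?_ hfac.le
    refine le_trans (ContinuousMultilinearMap.le_opNorm _ _) ?_
    simp only [norm_one, Finset.prod_const_one, mul_one]
    exact h2
  unfold tc
  rw [norm_mul, norm_inv, Complex.norm_natCast]
  calc ((n.factorial : ℝ))⁻¹ * ‖iteratedDeriv n f c‖
      ≤ ((n.factorial : ℝ))⁻¹ * (n.factorial *
      (((2 * Real.pi)⁻¹ * ∫ θ in (0 : ℝ)..(2 * Real.pi), ‖f (circleMap c s θ)‖) * |s|⁻¹ ^ n)) := by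
        gcongr
    _ = _ := by
        rw [abs_of_pos hs, inv_pow]
        field_simp

end CauL

open CauL

theorem cau : S_CAU := by
  intro f c z r s R hs hr hrs hsR hf hz K
  set M : ℝ := (2 * Real.pi)⁻¹ * ∫ θ in (0 : ℝ)..(2 * Real.pi), ‖f (circleMap c s θ)‖ with hM
  have hzR : z ∈ ball c R := by
    rw [mem_ball, dist_eq_norm]; linarith
  have h1 := hasSum_tc hf hzR
  have h2 : HasSum (fun n => tc f c (n + K) * (z - c) ^ (n + K))
      (f z - ∑ n ∈ Finset.range K, tc f c n * (z - c) ^ n) :=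
    (hasSum_nat_add_iff' K).2 h1
  have hM0 : 0 ≤ M := by
    have hh : 0 ≤ ∫ θ in (0 : ℝ)..(2 * Real.pi), ‖f (circleMap c s θ)‖ :=
      intervalIntegral.integral_nonneg (by positivity) fun _ _ => norm_nonneg _
    rw [hM]
    positivity
  have hq0 : 0 ≤ r / s := by positivity
  have hq1 : r / s < 1 := by rw [div_lt_one hs]; exact hrs
  have h3 : HasSum (fun n : ℕ => M * (r / s) ^ K * (r / s) ^ n)
      (M * (r / s) ^ K * (1 - r / s)⁻¹) := (hasSum_geometric_of_lt_one hq0 hq1).mul_left _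
  rw [← h2.tsum_eq, div_eq_mul_inv, ← h3.tsum_eq]
  refine tsum_of_norm_bounded h3 ?_ |>.trans ?_
  · intro n
    have h4 := tc_norm_le_mean hs hsR hf (n + K)
    rw [norm_mul, norm_pow]
    calc ‖tc f c (n + K)‖ * ‖z - c‖ ^ (n + K) ≤ (M / s ^ (n + K)) * r ^ (n + K) := by gcongr
      _ = M * (r / s) ^ K * (r / s) ^ n := by
        rw [div_pow, div_pow, pow_add, pow_add]
        field_simp
  · rw [h3.tsum_eq]

end Pool.Agent.Helper32K9.RD
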