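import Pool.Agent.Helper32K9.RD.St

/-!
# [CLII] the number of the unit intervals with a zero of the second class
-/

set_option autoImplicit false

namespace Pool.Agent.Helper32K9.RD

open Complex Metric MeasureTheory Set Filter Topology DH31
open scoped ENNReal

namespace CliiL

/-- disjoint intervals -/
lemma disj {f : ℝ → ℝ} {a b V K B : ℝ} (hV : 0 ≤ V) (hK : 0 < K) (hK2 : 2 ≤ K)
    (h : ∫⁻ t in Icc a b, ENNReal.ofReal (f t ^ 4) ≤ ENNReal.ofReal B) (hB : 0 ≤ B)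
    (P : Finset ℕ) (γ : ℕ → ℝ) (hP : ∀ n ∈ P, ∀ m ∈ P, n < m → n + 2 ≤ m)
    (hγ : ∀ n ∈ P, (n : ℝ) ≤ γ n ∧ γ n ≤ n + 1 ∧ a ≤ γ n ∧ γ n + 1 ≤ b ∧
      ∀ t : ℝ, γ n ≤ t → t ≤ γ n + 1 / K → V ≤ f t) :
    (P.card : ℝ) * V ^ 4 ≤ K * B := by
  have hK1 : 1 / K ≤ 1 / 2 := one_div_le_one_div_of_le (by norm_num) hK2
  have hK0 : 0 ≤ 1 / K := by positivity
  obtain ⟨I, hI⟩ : ∃ I : ℕ → Set ℝ, I = fun n => Icc (γ n) (γ n + 1 / K) := ⟨_, rfl⟩
  have hdis : (P : Set ℕ).PairwiseDisjoint I := by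
    have key : ∀ n ∈ P, ∀ m ∈ P, n < m → Disjoint (I n) (I m) := by
      intro n hn m hm hnm
      rw [hI]
      rw [Set.disjoint_left]
      rintro t ⟨h1, h2⟩ ⟨h3, h4⟩
      have h5 : ((n + 2 : ℕ) : ℝ) ≤ m := by exact_mod_cast hP n hn m hm hnm
      push_cast at h5
      have h6 := (hγ n hn).2.1
      have h7 := (hγ m hm).1
      linarith
    intro n hn m hm hnm
    rcases lt_or_gt_of_ne hnm with h | h
    · exact key n hn m hm h
    · exact (key m hm n hn h).symm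
  have h1 : ∑ n ∈ P, ∫⁻ t in I n, ENNReal.ofReal (f t ^ 4) ≤ ENNReal.ofReal B := by
    rw [← lintegral_biUnion_finset hdis (fun n _ => by rw [hI]; exact measurableSet_Icc)]
    refine (lintegral_mono_set ?_).trans h
    refine Set.iUnion₂_subset fun n hn => ?_
    rw [hI]
    have h2 := hγ n hn
    exact Icc_subset_Icc h2.2.2.1 (by linarith [h2.2.2.2.1])
  have h2 : ∀ n ∈ P, ENNReal.ofReal (V ^ 4 * (1 / K)) ≤ ∫⁻ t in I n, ENNReal.ofReal (f t ^ 4) := by
    intro n hn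
    calc ENNReal.ofReal (V ^ 4 * (1 / K)) = ∫⁻ t in I n, ENNReal.ofReal (V ^ 4) := by
          rw [hI, setLIntegral_const, Real.volume_Icc, ← ENNReal.ofReal_mul (by positivity),
            add_sub_cancel_left]
      _ ≤ _ := by
          refine setLIntegral_mono' (by rw [hI]; exact measurableSet_Icc) fun t ht => ?_
          rw [hI] at ht
          apply ENNReal.ofReal_le_ofReal
          have := (hγ n hn).2.2.2.2 t ht.1 ht.2
          gcongr
  have h3 := (Finset.sum_le_sum h2).trans h1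
  rw [Finset.sum_const, nsmul_eq_mul, ← ENNReal.ofReal_natCast,
    ← ENNReal.ofReal_mul (Nat.cast_nonneg _), ENNReal.ofReal_le_ofReal_iff hB] at h3
  have h4 : (P.card : ℝ) * (V ^ 4 * (1 / K)) = (P.card : ℝ) * V ^ 4 / K := by ring
  rw [h4, div_le_iff₀ hK] at h3
  linarith

end CliiL

open CliiL

theorem clii (hM : S_MOM) : S_CLII := by
  intro D δ η hD hδ hδ2 hη hη2
  obtain ⟨A, hA, hA2⟩ := hM D δ hD hδ hδ2
  refine ⟨4 * (D + 4) * A, 3, by positivity, by norm_num, fun T hT σ hσ hσ1 S γ hS => ?_⟩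
  have hT0 : 0 < T := by linarith
  have hT1 : 1 ≤ T := by linarith
  have hlog : 1 ≤ Real.log T := by
    rw [Real.le_log_iff_exp_le hT0]
    have := Real.exp_one_lt_d9
    linarith
  obtain ⟨K, hK⟩ : ∃ K : ℝ, K = (KN D δ T : ℝ) := ⟨_, rfl⟩
  obtain ⟨V, hV⟩ : ∃ V : ℝ, V = T ^ ((σ - 1 / 2) / 2 - δ) := ⟨_, rfl⟩
  obtain ⟨X, hX⟩ : ∃ X : ℕ, X = XN η T := ⟨_, rfl⟩
  rw [← hK, ← hV, ← hX] at hS
  have hV0 : 0 ≤ V := by rw [hV]; positivity
  have hK2 : 2 ≤ K := by
    rw [hK]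
    unfold KN
    push_cast
    have : (0 : ℝ) ≤ (⌈(1 / 2 + D - δ) / 2 * Real.log T⌉₊ : ℝ) := Nat.cast_nonneg _
    linarith
  have hKu : K ≤ (D + 4) * Real.log T := by
    rw [hK]
    unfold KN
    push_cast
    have h1 := Nat.ceil_lt_add_one (a := (1 / 2 + D - δ) / 2 * Real.log T)
      (mul_nonneg (by linarith) (by linarith))
    have h2 : (1 / 2 + D - δ) / 2 * Real.log T ≤ (D + 1) * Real.log T := by
      apply mul_le_mul_of_nonneg_right _ (by linarith)
      linarith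
    linarith
  have hX1 : 1 ≤ X := by
    rw [hX]
    unfold XN
    rw [Nat.one_le_floor_iff]
    exact Real.one_le_rpow hT1 hη.le
  have hXu : (X : ℝ) ≤ T ^ η := by
    rw [hX]
    exact Nat.floor_le (by positivity)
  have h1 := hA2 X (T + 1) hX1 (by linarith)
  have hB : 0 ≤ A * (X : ℝ) ^ 4 * (T + 1) := by positivity
  -- the two classes
  have key : ∀ r : ℕ, (((S.filter fun n => n % 2 = r).card : ℕ) : ℝ) * V ^ 4 ≤
      K * (A * (X : ℝ) ^ 4 * (T + 1)) := by
    intro r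
    refine disj (f := fun t => cmean X D (1 / 2 + D - δ) t) (a := D + 3) (b := T + 1) hV0
      (by linarith) hK2 h1 hB _ γ ?_ ?_
    · intro n hn m hm hnm
      rw [Finset.mem_filter] at hn hm
      omega
    · intro n hn
      rw [Finset.mem_filter] at hn
      obtain ⟨a1, a2, a3, a4, a5⟩ := hS n hn.1
      exact ⟨a1, a2, a3, by linarith, a5⟩
  have hcard : (S.card : ℝ) = ((S.filter fun n => n % 2 = 0).card : ℕ) +
      ((S.filter fun n => n % 2 = 1).card : ℕ) := by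
    have h2 := Finset.card_filter_add_card_filter_not (s := S) (fun n => n % 2 = 0)
    have h3 : (S.filter fun n => ¬ n % 2 = 0) = S.filter fun n => n % 2 = 1 := by
      apply Finset.filter_congr
      intro n _
      omega
    rw [h3] at h2
    exact_mod_cast h2.symm
  have h2 := key 0
  have h3 := key 1
  have h4 : (S.card : ℝ) * V ^ 4 ≤ 2 * (K * (A * (X : ℝ) ^ 4 * (T + 1))) := by
    rw [hcard, add_mul]
    linarith
  have hV4 : V ^ 4 = T ^ (2 * σ - 1 - 4 * δ) := by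
    rw [hV, ← Real.rpow_natCast, ← Real.rpow_mul hT0.le]
    congr 1
    push_cast
    ring
  have hVp : 0 < V ^ 4 := by rw [hV4]; positivity
  have hX4 : (X : ℝ) ^ 4 ≤ T ^ (4 * η) := by
    calc (X : ℝ) ^ 4 ≤ (T ^ η) ^ 4 := by gcongr
      _ = T ^ (4 * η) := by
        rw [← Real.rpow_natCast, ← Real.rpow_mul hT0.le]
        congr 1
        push_cast
        ring
  have h5 : 2 * (K * (A * (X : ℝ) ^ 4 * (T + 1))) ≤
      2 * (((D + 4) * Real.log T) * (A * T ^ (4 * η) * (2 * T))) := by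
    have : 0 ≤ (D + 4) * Real.log T := by nlinarith
    gcongr
    linarith
  have h6 : 4 * (D + 4) * A * Real.log T * T ^ (2 - 2 * σ + 4 * δ + 4 * η) * V ^ 4 =
      2 * (((D + 4) * Real.log T) * (A * T ^ (4 * η) * (2 * T))) := by
    have h7 : T ^ (2 - 2 * σ + 4 * δ + 4 * η) * V ^ 4 = T ^ (4 * η) * T := by
      rw [hV4, ← Real.rpow_add hT0]
      conv_rhs => rw [← Real.rpow_one T, ← Real.rpow_mul hT0.le, ← Real.rpow_add hT0]
      congr 1
      ring
    rw [mul_assoc, h7]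
    ring
  have h7 : (S.card : ℝ) * V ^ 4 ≤
      (4 * (D + 4) * A * Real.log T * T ^ (2 - 2 * σ + 4 * δ + 4 * η)) * V ^ 4 := by
    rw [h6]
    exact h4.trans h5
  exact le_of_mul_le_mul_right h7 hVp

end Pool.Agent.Helper32K9.RD
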