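import Pool.Agent.Helper32K9.RD.St

/-!
# Detection of the zeros
-/

set_option autoImplicit false

namespace Pool.Agent.Helper32K9.RD

open Complex Metric MeasureTheory Set Filter Topology DH31

namespace DetL

lemma KN_two (D δ T : ℝ) : 2 ≤ KN D δ T := by unfold KN; omega

lemma KN_ge (D δ T : ℝ) : (1 / 2 + D - δ) / 2 * Real.log T ≤ (KN D δ T : ℝ) := by
  unfold KN
  push_cast
  have := Nat.le_ceil ((1 / 2 + D - δ) / 2 * Real.log T)
  linarith

lemma KN_le {D δ T : ℝ} (h : 0 ≤ (1 / 2 + D - δ) / 2 * Real.log T) :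
    (KN D δ T : ℝ) ≤ (1 / 2 + D - δ) / 2 * Real.log T + 3 := by
  unfold KN
  push_cast
  have := (Nat.ceil_lt_add_one h).le
  linarith

/-- the inequality between the exponents -/
lemma expo {κ D δ : ℝ} (hκ : 0 < κ) (hκ1 : κ ≤ 1 / 12) (hD : 20 / κ ^ 2 ≤ D) (hδ : 0 < δ) :
    0 ≤ D - 1 / 2 - (1 / 2 + D) / (1 + κ) ∧
    κ * ((1 / 2 + D - δ) / 2) + 1 ≤ (1 / 2 + κ) * (D - 1 / 2 - (1 / 2 + D) / (1 + κ)) := by
  have h1 : 20 ≤ D * κ ^ 2 := by
    rw [div_le_iff₀ (by positivity)] at hD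
    linarith
  have hk : 0 < 1 + κ := by linarith
  have hDpos : 0 < D := by
    have : 0 < 20 / κ ^ 2 := by positivity
    linarith
  have hDκ : 20 ≤ D * κ := by nlinarith
  have e1 : D - 1 / 2 - (1 / 2 + D) / (1 + κ) = (D * κ - 1 - κ / 2) / (1 + κ) := by
    field_simp
    ring
  rw [e1]
  constructor
  · apply div_nonneg _ hk.le
    linarith
  · have e2 : (1 / 2 + κ) * ((D * κ - 1 - κ / 2) / (1 + κ)) =
        ((1 / 2 + κ) * (D * κ - 1 - κ / 2)) / (1 + κ) := by ring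
    rw [e2, le_div_iff₀ hk]
    have e3 : (1 / 2 + κ) * (D * κ - 1 - κ / 2) - (κ * ((1 / 2 + D - δ) / 2) + 1) * (1 + κ) =
        D * κ ^ 2 / 2 - 3 / 2 - κ * (1 / 4 + 2 + 1 / 4) - κ ^ 2 * (1 / 4 + 1 / 2) +
          κ * δ / 2 * (1 + κ) := by ring
    have e4 : 0 ≤ κ * δ / 2 * (1 + κ) := by positivity
    nlinarith

lemma cen_re (D t : ℝ) : (cen D t).re = 1 + D := rfl
lemma cen_im (D t : ℝ) : (cen D t).im = t := rfl

lemma FX_diff {X : ℕ} {D t : ℝ} (ht : D + 3 ≤ t) :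
    DifferentiableOn ℂ (FX X) (ball (cen D t) (1 / 2 + D)) := by
  intro z hz
  have h1 : |(z - cen D t).im| ≤ ‖z - cen D t‖ := Complex.abs_im_le_norm _
  rw [mem_ball, dist_eq_norm] at hz
  rw [Complex.sub_im, cen_im] at h1
  have h2 := (abs_le.1 (h1.trans hz.le)).1
  have hne : z ≠ 1 := by
    rintro rfl
    simp at h2
    linarith
  exact ((differentiableAt_riemannZeta hne).mul (MX_differentiable X z)).differentiableWithinAt

lemma norm_z {D τ σ : ℝ} (hD : 1 ≤ D) {ρ : ℂ} (h1 : σ ≤ ρ.re) (h2 : ρ.re ≤ 1) {t : ℝ}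
    (h3 : ρ.im ≤ t) (h4 : t ≤ ρ.im + τ) : ‖ρ - cen D t‖ ≤ 1 + D - σ + τ ^ 2 := by
  have hτ : 0 ≤ τ := by linarith
  have ha : 1 ≤ 1 + D - ρ.re := by linarith
  have hsq : ‖ρ - cen D t‖ ^ 2 ≤ (1 + D - ρ.re + τ ^ 2) ^ 2 := by
    rw [Complex.sq_norm, Complex.normSq_apply, Complex.sub_re, Complex.sub_im, cen_re, cen_im]
    have hb : (ρ.im - t) * (ρ.im - t) ≤ τ ^ 2 := by nlinarith
    nlinarith [sq_nonneg (τ ^ 2), mul_nonneg (by linarith : (0:ℝ) ≤ 1 + D - ρ.re) (sq_nonneg τ)]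
  have h5 : ‖ρ - cen D t‖ ≤ 1 + D - ρ.re + τ ^ 2 := by
    apply le_of_sq_le_sq hsq
    positivity
  linarith

/-- the Dirichlet polynomial -/
lemma poly_eq (D σ t : ℝ) (k X Z : ℕ) :
    ∑ n ∈ Finset.Ioc X Z, bc D σ k X n * (n : ℂ) ^ (-(t : ℂ) * I) =
      (((1 + D - σ) ^ k / k.factorial : ℝ) : ℂ) *
        ∑ n ∈ Finset.Ioc X Z, aX X n * (Real.log n : ℂ) ^ k * (n : ℂ) ^ (-(cen D t)) := by
  rw [Finset.mul_sum]
  refine Finset.sum_congr rfl fun n hn => ?_
  rw [Finset.mem_Ioc] at hn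
  have hn0 : (n : ℂ) ≠ 0 := by
    have : n ≠ 0 := by omega
    exact_mod_cast this
  have e1 : -(cen D t) = (-(1 + D : ℝ) : ℂ) + (-(t : ℂ) * I) := by
    apply Complex.ext <;> simp [cen_re, cen_im]
  unfold bc
  rw [e1, Complex.cpow_add _ _ hn0, mul_pow]
  push_cast
  ring

end DetL

open DetL

theorem det (hcau : S_CAU) (hhead : S_HEAD) : S_DET := by
  intro κ D δ η hκ hκ1 hD hδ hδ1 hη hη1
  obtain ⟨hE0, hE⟩ := expo hκ hκ1 hD hδ
  have hDbig : 20 ≤ D := by
    refine le_trans ?_ hD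
    rw [le_div_iff₀ (by positivity)]
    nlinarith
  have hD1 : 1 ≤ D := by linarith
  obtain ⟨C, hC, hhead'⟩ := hhead κ D hκ (by linarith) hD1 hE0
  set E : ℝ := D - 1 / 2 - (1 / 2 + D) / (1 + κ) with hEdef
  set R : ℝ := 1 / 2 + D - δ with hR
  have hRpos : 0 < R := by rw [hR]; linarith
  -- eventual inequalities
  have ev1 : ∀ᶠ T : ℝ in atTop, (8 * R / δ) ≤ T ^ (δ / 4) :=
    (tendsto_rpow_atTop (show 0 < δ / 4 by positivity)).eventually_ge_atTop _
  have ev2 : ∀ᶠ T : ℝ in atTop, 4 * (C * (3 * 2 ^ E)) ≤ T := eventually_ge_atTop _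
  have ev3 : ∀ᶠ T : ℝ in atTop, 4 / δ ≤ Real.log T := Real.tendsto_log_atTop.eventually_ge_atTop _
  have ev4 : ∀ᶠ T : ℝ in atTop, (4 : ℝ) ≤ T := eventually_ge_atTop _
  obtain ⟨T0, hT0⟩ := Filter.eventually_atTop.1 ((ev1.and ev2).and (ev3.and ev4))
  refine ⟨max T0 1, le_max_right _ _, ?_⟩
  intro T hT σ hσ1 hσ2 ρ hρ hρ1 hρ2 hρ3 t ht1 ht2
  obtain ⟨⟨e1, e2⟩, ⟨e3, e4⟩⟩ := hT0 T ((le_max_left _ _).trans hT)
  have hTpos : 0 < T := by linarith
  have hT1 : 1 ≤ T := by linarith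
  set K := KN D δ T with hK
  set X := XN η T with hX
  set Z := ZN κ T with hZ
  have hK2 : 2 ≤ K := KN_two D δ T
  have hK2r : (2 : ℝ) ≤ K := by exact_mod_cast hK2
  have hKpos : (0 : ℝ) < K := by linarith
  have hKge : R / 2 * Real.log T ≤ K := KN_ge D δ T
  have hlog : 0 ≤ Real.log T := Real.log_nonneg hT1
  have hKle : (K : ℝ) ≤ R / 2 * Real.log T + 3 := KN_le (by rw [← hR]; positivity)
  set τ : ℝ := 1 / (K : ℝ) with hτ
  have hτpos : 0 < τ := by positivity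
  have hτ2 : τ ≤ 1 / 2 := by
    rw [hτ]
    exact one_div_le_one_div_of_le (by norm_num) hK2r
  have hτδ : τ ≤ δ := by
    rw [hτ, div_le_iff₀ hKpos]
    have h1 : 4 ≤ δ * Real.log T := by
      rw [div_le_iff₀ hδ] at e3
      linarith
    have h2 : Real.log T ≤ K := by nlinarith
    nlinarith
  have hτsq : τ ^ 2 ≤ δ / 2 := by nlinarith
  set r : ℝ := 1 + D - σ + τ ^ 2 with hr
  have hr0 : 0 ≤ r := by rw [hr]; nlinarith [sq_nonneg τ]
  have hrR : r + δ / 2 ≤ R := by rw [hr, hR]; linarith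
  have hrlt : r < R := by linarith
  have hz : ‖ρ - cen D t‖ ≤ r := norm_z hD1 hρ1 hρ2 ht1 ht2
  have hz2 : ‖ρ - cen D t‖ ≤ 1 / 2 + D := by rw [hR] at hrR; linarith
  have hX1 : 1 ≤ X := by
    rw [hX]; unfold XN
    apply Nat.le_floor
    push_cast
    exact Real.one_le_rpow hT1 hη.le
  have hXZ : X ≤ Z := by
    rw [hX, hZ]; unfold XN ZN
    exact Nat.floor_mono (Real.rpow_le_rpow_of_exponent_le hT1 (by linarith))
  by_cases hA : T ^ ((σ - 1 / 2) / 2 - δ) ≤ cmean X D R t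
  · exact Or.inl hA
  right
  push Not at hA
  -- the Taylor tail
  have hcau1 := hcau (FX X) (cen D t) ρ r R (1 / 2 + D) hRpos hr0 hrlt (by rw [hR]; linarith)
    (FX_diff (by linarith)) hz K
  have hF0 : FX X ρ = 0 := by unfold FX; rw [hρ, zero_mul]
  rw [hF0, zero_sub, norm_neg] at hcau1
  change _ ≤ cmean X D R t * (r / R) ^ K / (1 - r / R) at hcau1
  have hq0 : 0 ≤ r / R := by positivity
  have hq : (r / R) ^ K ≤ T ^ (-((R - r) / 2)) := by
    have h1 : r / R ≤ Real.exp (-((R - r) / R)) := by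
      have h2 := Real.add_one_le_exp (-((R - r) / R))
      have h3 : -((R - r) / R) + 1 = r / R := by field_simp; ring
      linarith
    calc (r / R) ^ K ≤ (Real.exp (-((R - r) / R))) ^ K := by gcongr
      _ = Real.exp (-((R - r) / R) * K) := by rw [← Real.exp_nat_mul]; congr 1; ring
      _ ≤ T ^ (-((R - r) / 2)) := by
        rw [Real.rpow_def_of_pos hTpos]
        apply Real.exp_le_exp.2
        have h2 : (R - r) / R * (R / 2 * Real.log T) ≤ (R - r) / R * K := by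
          apply mul_le_mul_of_nonneg_left hKge
          apply div_nonneg (by linarith) hRpos.le
        have h3 : (R - r) / R * (R / 2 * Real.log T) = Real.log T * ((R - r) / 2) := by
          field_simp
        linarith
  have h1q : δ / (2 * R) ≤ 1 - r / R := by
    have h1 : 1 - r / R = (R - r) / R := by field_simp
    rw [h1, div_le_div_iff₀ (by positivity) hRpos]
    nlinarith
  have hTay : ‖∑ n ∈ Finset.range K, tc (FX X) (cen D t) n * (ρ - cen D t) ^ n‖ ≤ 1 / 4 := by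
    have hd0 : 0 < 1 - r / R := lt_of_lt_of_le (by positivity) h1q
    have hVpos : 0 < T ^ ((σ - 1 / 2) / 2 - δ) := by positivity
    calc _ ≤ cmean X D R t * (r / R) ^ K / (1 - r / R) := hcau1
      _ ≤ T ^ ((σ - 1 / 2) / 2 - δ) * T ^ (-((R - r) / 2)) / (δ / (2 * R)) := by
          have h1 : cmean X D R t * (r / R) ^ K ≤
              T ^ ((σ - 1 / 2) / 2 - δ) * T ^ (-((R - r) / 2)) := by
            have h2 : cmean X D R t * (r / R) ^ K ≤ T ^ ((σ - 1 / 2) / 2 - δ) * (r / R) ^ K := by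
              gcongr
            refine h2.trans ?_
            gcongr
          have h3 : 0 ≤ T ^ ((σ - 1 / 2) / 2 - δ) * T ^ (-((R - r) / 2)) := by positivity
          calc cmean X D R t * (r / R) ^ K / (1 - r / R) ≤
              T ^ ((σ - 1 / 2) / 2 - δ) * T ^ (-((R - r) / 2)) / (1 - r / R) := by gcongr
            _ ≤ _ := by gcongr
      _ = T ^ (((σ - 1 / 2) / 2 - δ) + (-((R - r) / 2))) * (2 * R / δ) := by
          rw [Real.rpow_add hTpos]
          field_simp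
      _ ≤ T ^ (-(δ / 4)) * (2 * R / δ) := by
          have h1 : ((σ - 1 / 2) / 2 - δ) + (-((R - r) / 2)) ≤ -(δ / 4) := by
            rw [hr, hR]
            linarith
          have := Real.rpow_le_rpow_of_exponent_le hT1 h1
          gcongr
      _ ≤ 1 / 4 := by
          rw [Real.rpow_neg hTpos.le, ← div_eq_inv_mul, div_le_iff₀ (by positivity)]
          have : 8 * R / δ = 4 * (2 * R / δ) := by ring
          rw [this] at e1
          linarith
  -- the head
  have hhd := hhead' X Z K t (ρ - cen D t) hX1 hXZ (by omega) hz2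
  have hZlow : T ^ (1 / 2 + κ) / 2 ≤ Z := by
    have h1 : (2 : ℝ) ≤ T ^ (1 / 2 + κ) := by
      have h2 : (2 : ℝ) = 4 ^ (1 / 2 : ℝ) := by
        rw [show (4 : ℝ) = 2 ^ (2 : ℝ) by norm_num, ← Real.rpow_mul (by norm_num)]
        norm_num
      rw [h2]
      calc (4 : ℝ) ^ (1 / 2 : ℝ) ≤ T ^ (1 / 2 : ℝ) := by gcongr
        _ ≤ _ := Real.rpow_le_rpow_of_exponent_le hT1 (by linarith)
    have h3 := (Nat.lt_floor_add_one (T ^ (1 / 2 + κ))).le
    change T ^ (1 / 2 + κ) ≤ (Z : ℝ) + 1 at h3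
    linarith
  have htail : C * (1 + κ) ^ K * (Z : ℝ) ^ (-E) ≤ 1 / 4 := by
    have h1 : (1 + κ) ^ K ≤ 3 * T ^ (κ * (R / 2)) := by
      calc (1 + κ) ^ K ≤ (Real.exp κ) ^ K := by
            have := Real.add_one_le_exp κ
            gcongr
            linarith
        _ = Real.exp (κ * K) := by rw [← Real.exp_nat_mul]; congr 1; ring
        _ ≤ Real.exp (1 + Real.log T * (κ * (R / 2))) := by
            apply Real.exp_le_exp.2
            have : κ * K ≤ κ * (R / 2 * Real.log T + 3) := by gcongr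
            nlinarith
        _ = Real.exp 1 * T ^ (κ * (R / 2)) := by
            rw [Real.exp_add, Real.rpow_def_of_pos hTpos]
        _ ≤ _ := by
            have := Real.exp_one_lt_d9.le
            gcongr
            linarith
    have h2 : (Z : ℝ) ^ (-E) ≤ 2 ^ E * T ^ (-((1 / 2 + κ) * E)) := by
      calc (Z : ℝ) ^ (-E) ≤ (T ^ (1 / 2 + κ) / 2) ^ (-E) :=
            Real.rpow_le_rpow_of_nonpos (by positivity) hZlow (by linarith)
        _ = _ := by
            rw [Real.div_rpow (by positivity) (by norm_num), ← Real.rpow_mul hTpos.le,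
              Real.rpow_neg (by norm_num : (0:ℝ) ≤ 2), div_inv_eq_mul, mul_comm]
            congr 2
            ring
    calc C * (1 + κ) ^ K * (Z : ℝ) ^ (-E) ≤ C * (3 * T ^ (κ * (R / 2))) *
          (2 ^ E * T ^ (-((1 / 2 + κ) * E))) := by gcongr
      _ = C * (3 * 2 ^ E) * T ^ (κ * (R / 2) + -((1 / 2 + κ) * E)) := by
          rw [Real.rpow_add hTpos]; ring
      _ ≤ C * (3 * 2 ^ E) * T ^ (-1 : ℝ) := by
          have h3 : κ * (R / 2) + -((1 / 2 + κ) * E) ≤ -1 := by linarith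
          have := Real.rpow_le_rpow_of_exponent_le hT1 h3
          gcongr
      _ ≤ 1 / 4 := by
          rw [Real.rpow_neg_one, ← div_eq_mul_inv, div_le_iff₀ hTpos]
          linarith
  -- the main sum is large
  set M : ℂ := ∑ k ∈ Finset.range K, ((-(ρ - cen D t)) ^ k / (k.factorial : ℂ)) *
        ∑ n ∈ Finset.Ioc X Z, aX X n * (Real.log n : ℂ) ^ k * (n : ℂ) ^ (-(cen D t)) with hM
  have hMlow : 1 / 2 ≤ ‖M‖ := by
    set W := ∑ n ∈ Finset.range K, tc (FX X) (cen D t) n * (ρ - cen D t) ^ n with hW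
    have h1 : ‖W - 1 - M‖ ≤ 1 / 4 := hhd.trans htail
    have h2 : (1 : ℂ) = W - (W - 1 - M) - M := by ring
    have h3 : ‖(1 : ℂ)‖ ≤ ‖W‖ + ‖W - 1 - M‖ + ‖M‖ := by
      calc ‖(1 : ℂ)‖ = ‖W - (W - 1 - M) - M‖ := by rw [← h2]
        _ ≤ ‖W - (W - 1 - M)‖ + ‖M‖ := norm_sub_le _ _
        _ ≤ _ := by gcongr; exact norm_sub_le _ _
    rw [norm_one] at h3
    linarith
  -- pigeonhole
  obtain ⟨k, hk, hkl⟩ : ∃ k ∈ Finset.range K, 1 / (2 * (K : ℝ)) ≤
      ‖((-(ρ - cen D t)) ^ k / (k.factorial : ℂ)) *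
        ∑ n ∈ Finset.Ioc X Z, aX X n * (Real.log n : ℂ) ^ k * (n : ℂ) ^ (-(cen D t))‖ := by
    by_contra hcon
    push Not at hcon
    have h1 : ‖M‖ < 1 / 2 := by
      calc ‖M‖ ≤ ∑ k ∈ Finset.range K, ‖((-(ρ - cen D t)) ^ k / (k.factorial : ℂ)) *
        ∑ n ∈ Finset.Ioc X Z, aX X n * (Real.log n : ℂ) ^ k * (n : ℂ) ^ (-(cen D t))‖ :=
            norm_sum_le _ _
        _ < ∑ k ∈ Finset.range K, 1 / (2 * (K : ℝ)) := by
            refine Finset.sum_lt_sum_of_nonempty ⟨0, Finset.mem_range.2 (by omega)⟩ ?_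
            exact hcon
        _ = 1 / 2 := by
            rw [Finset.sum_const, Finset.card_range, nsmul_eq_mul]
            field_simp
    linarith
  refine ⟨k, Finset.mem_range.1 hk, ?_⟩
  rw [poly_eq, norm_mul, Complex.norm_real]
  set P := ‖∑ n ∈ Finset.Ioc X Z, aX X n * (Real.log n : ℂ) ^ k * (n : ℂ) ^ (-(cen D t))‖ with hP
  have hϱ1 : 1 ≤ 1 + D - σ := by linarith
  have hzk : ‖ρ - cen D t‖ ^ k ≤ 2 * (1 + D - σ) ^ k := by
    have h1 : ‖ρ - cen D t‖ ≤ (1 + D - σ) * (1 + τ ^ 2) := by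
      refine hz.trans ?_
      rw [hr]
      nlinarith [sq_nonneg τ]
    have h2 : (1 + τ ^ 2) ^ k ≤ 2 := by
      calc (1 + τ ^ 2) ^ k ≤ (1 + τ ^ 2) ^ K :=
            pow_le_pow_right₀ (by nlinarith [sq_nonneg τ]) (Finset.mem_range.1 hk).le
        _ ≤ (Real.exp (τ ^ 2)) ^ K := by
            have := Real.add_one_le_exp (τ ^ 2)
            gcongr
            linarith
        _ = Real.exp (K * τ ^ 2) := by rw [← Real.exp_nat_mul]
        _ ≤ Real.exp (1 / 2) := by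
            apply Real.exp_le_exp.2
            have : (K : ℝ) * τ ^ 2 = τ := by rw [hτ]; field_simp
            rw [this]
            exact hτ2
        _ ≤ 2 := by
            have h3 : Real.exp (1 / 2) ^ 2 ≤ 2 ^ 2 := by
              rw [← Real.exp_nat_mul]
              norm_num
              have := Real.exp_one_lt_d9.le
              linarith
            exact le_of_sq_le_sq h3 (by norm_num)
    calc ‖ρ - cen D t‖ ^ k ≤ ((1 + D - σ) * (1 + τ ^ 2)) ^ k := by gcongr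
      _ = (1 + D - σ) ^ k * (1 + τ ^ 2) ^ k := by rw [mul_pow]
      _ ≤ (1 + D - σ) ^ k * 2 := by gcongr
      _ = _ := by ring
  have hkf : (0 : ℝ) < k.factorial := by positivity
  rw [norm_mul, norm_div, norm_pow, norm_neg, Complex.norm_natCast] at hkl
  rw [Real.norm_of_nonneg (by positivity)]
  have hP0 : 0 ≤ P := norm_nonneg _
  have h1 : 1 / (2 * (K : ℝ)) ≤ 2 * ((1 + D - σ) ^ k / k.factorial * P) := by
    calc 1 / (2 * (K : ℝ)) ≤ ‖ρ - cen D t‖ ^ k / k.factorial * P := hkl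
      _ ≤ 2 * (1 + D - σ) ^ k / k.factorial * P := by gcongr
      _ = _ := by ring
  have h2 : 1 / (4 * (K : ℝ)) = (1 / (2 * (K : ℝ))) / 2 := by field_simp; norm_num
  rw [h2]
  linarith

end Pool.Agent.Helper32K9.RD
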