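import Pool.Agent.Helper32K9.RD.St

/-!
# The exceptional cells
-/

set_option autoImplicit false

namespace Pool.Agent.Helper32K9.RD

open Complex Metric MeasureTheory Set Filter Topology DH31

/-- [EXC] the number of the intervals with many zeros -/
def S_EXC : Prop := ∀ ε : ℝ, 0 < ε → ∃ T₀ : ℝ, ∀ T : ℝ, T₀ ≤ T → ∀ σ : ℝ, 3 / 4 ≤ σ →
  σ ≤ 1 → ∀ H : ℝ, Real.sqrt T ≤ H → H ≤ T ^ (2 / 3 : ℝ) → ∀ J : Finset ℕ,
  (∀ k ∈ J, T ^ ε * H ^ (2 * (1 - σ)) ≤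
    (cnt {ρ : ℂ | ρ ∈ zeros σ T ∧ k * H ≤ ρ.im ∧ ρ.im < (k + 1) * H} : ℝ)) →
  (J.card : ℝ) ≤ (T / H) ^ (2 * (1 - σ))

theorem exc (hasm : S_ASM) (hqh : S_QH) : S_EXC := by
  classical
  intro ε hε
  obtain ⟨C, T1, hC, h1⟩ := hasm (ε / 2) (by positivity)
  have ev1 : ∀ᶠ T : ℝ in atTop, 4 * C ≤ T ^ (ε / 2) :=
    (tendsto_rpow_atTop (show 0 < ε / 2 by positivity)).eventually_ge_atTop _
  obtain ⟨T2, hT2⟩ := Filter.eventually_atTop.1 ev1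
  refine ⟨max (max T1 T2) 1, ?_⟩
  intro T hT σ hσ1 hσ2 H hH1 hH2 J hJ
  have hTT1 : T1 ≤ T := le_trans (le_trans (le_max_left _ _) (le_max_left _ _)) hT
  have hTT2 : T2 ≤ T := le_trans (le_trans (le_max_right _ _) (le_max_left _ _)) hT
  have hT1' : 1 ≤ T := le_trans (le_max_right _ _) hT
  have hTpos : 0 < T := by linarith
  have hHpos : 0 < H := lt_of_lt_of_le (Real.sqrt_pos.2 hTpos) hH1
  have h2 := h1 T hTT1 σ (by linarith) hσ2 H hH1 J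
  have h3 := hT2 T hTT2
  have h4 := hqh T H σ hT1' hH1 hH2 hσ1 hσ2
  set E : ℝ := H ^ (2 * (1 - σ)) with hE
  have hEpos : 0 < E := by positivity
  set P : ℝ := T ^ (ε / 2) with hP
  have hPpos : 0 < P := by positivity
  have hPP : T ^ ε = P * P := by
    rw [hP, ← Real.rpow_add hTpos]
    congr 1
    ring
  -- lower bound for the number of the zeros
  have hf : ∀ k : ℕ, {ρ : ℂ | ρ ∈ zeros σ T ∧ k * H ≤ ρ.im ∧ ρ.im < (k + 1) * H}.Finite :=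
    fun k => (zeros_finite σ T).subset fun _ h => h.1
  have hfJ : {ρ : ℂ | ρ ∈ zeros σ T ∧ ⌊ρ.im / H⌋₊ ∈ J}.Finite :=
    (zeros_finite σ T).subset fun _ h => h.1
  have hcell : ∀ (k : ℕ) (ρ : ℂ), 0 < ρ.im → k * H ≤ ρ.im → ρ.im < (k + 1) * H →
      ⌊ρ.im / H⌋₊ = k := by
    intro k ρ h0 h5 h6
    rw [Nat.floor_eq_iff (by positivity)]
    constructor
    · rw [le_div_iff₀ hHpos]; exact h5
    · rw [div_lt_iff₀ hHpos]; exact h6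
  have hlow : ∑ k ∈ J, cnt {ρ : ℂ | ρ ∈ zeros σ T ∧ k * H ≤ ρ.im ∧ ρ.im < (k + 1) * H} ≤
      cnt {ρ : ℂ | ρ ∈ zeros σ T ∧ ⌊ρ.im / H⌋₊ ∈ J} := by
    have e1 : ∀ k ∈ J, cnt {ρ : ℂ | ρ ∈ zeros σ T ∧ k * H ≤ ρ.im ∧ ρ.im < (k + 1) * H} =
        ∑ s ∈ (hf k).toFinset, analyticOrderNatAt riemannZeta s := fun k _ => cnt_eq (hf k)
    rw [Finset.sum_congr rfl e1, ← Finset.sum_biUnion]
    · refine sum_le_cnt hfJ _ ?_
      intro z hz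
      rw [Finset.mem_biUnion] at hz
      obtain ⟨k, hk, hz⟩ := hz
      rw [Set.Finite.mem_toFinset] at hz
      obtain ⟨a1, a2, a3⟩ := hz
      refine ⟨a1, ?_⟩
      rw [hcell k z a1.2.2.1 a2 a3]
      exact hk
    · intro a _ b _ hab
      rw [Function.onFun, Finset.disjoint_left]
      intro s hsa hsb
      rw [Set.Finite.mem_toFinset] at hsa hsb
      apply hab
      rw [← hcell a s hsa.1.2.2.1 hsa.2.1 hsa.2.2, ← hcell b s hsb.1.2.2.1 hsb.2.1 hsb.2.2]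
  have h5 : (J.card : ℝ) * (T ^ ε * E) ≤
      (cnt {ρ : ℂ | ρ ∈ zeros σ T ∧ ⌊ρ.im / H⌋₊ ∈ J} : ℝ) := by
    calc (J.card : ℝ) * (T ^ ε * E) = ∑ k ∈ J, T ^ ε * E := by
          rw [Finset.sum_const, nsmul_eq_mul]
      _ ≤ ∑ k ∈ J, (cnt {ρ : ℂ | ρ ∈ zeros σ T ∧ k * H ≤ ρ.im ∧ ρ.im < (k + 1) * H} : ℝ) :=
          Finset.sum_le_sum hJ
      _ = ((∑ k ∈ J, cnt {ρ : ℂ | ρ ∈ zeros σ T ∧ k * H ≤ ρ.im ∧ ρ.im < (k + 1) * H} : ℕ) : ℝ) := by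
          rw [Nat.cast_sum]
      _ ≤ _ := by exact_mod_cast hlow
  have h6 : (J.card : ℝ) * (P * P * E) ≤ C * P * (T ^ (2 * (1 - σ)) + J.card * (3 * E)) := by
    rw [← hPP]
    refine h5.trans (h2.trans ?_)
    gcongr
  -- divide
  have h7 : (J.card : ℝ) * (P * E) ≤ C * (T ^ (2 * (1 - σ)) + J.card * (3 * E)) := by
    have : P * ((J.card : ℝ) * (P * E)) ≤ P * (C * (T ^ (2 * (1 - σ)) + J.card * (3 * E))) := by
      calc P * ((J.card : ℝ) * (P * E)) = (J.card : ℝ) * (P * P * E) := by ring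
        _ ≤ _ := h6
        _ = _ := by ring
    exact le_of_mul_le_mul_left this hPpos
  have h8 : (J.card : ℝ) * (4 * C * E) ≤ (J.card : ℝ) * (P * E) := by gcongr
  have h9 : C * ((J.card : ℝ) * E) ≤ C * T ^ (2 * (1 - σ)) := by nlinarith
  have h10 : (J.card : ℝ) * E ≤ T ^ (2 * (1 - σ)) := le_of_mul_le_mul_left h9 hC
  rw [Real.div_rpow hTpos.le hHpos.le, le_div_iff₀ hEpos]
  exact h10

end Pool.Agent.Helper32K9.RD
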