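import Pool.Agent.Helper32K9.RD.St

/-!
# [HEAD] the truncated Taylor series of the mollified zeta function as a Dirichlet polynomial
-/

set_option autoImplicit false

namespace Pool.Agent.Helper32K9.RD

open Complex Metric MeasureTheory Set Filter Topology DH31

namespace HeadL

lemma trunc_exp {x u : ℝ} (hx : 0 ≤ x) (hu : 1 ≤ u) (K : ℕ) :
    ∑ k ∈ Finset.range K, x ^ k / (k.factorial : ℝ) ≤ u ^ K * Real.exp (x / u) := by
  have hu0 : 0 < u := by linarith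
  have h1 : ∀ k ∈ Finset.range K, x ^ k / (k.factorial : ℝ) ≤
      u ^ K * ((x / u) ^ k / (k.factorial : ℝ)) := by
    intro k hk
    rw [Finset.mem_range] at hk
    have e1 : x ^ k / (k.factorial : ℝ) = u ^ k * ((x / u) ^ k / (k.factorial : ℝ)) := by
      rw [div_pow]
      field_simp
    rw [e1]
    have e2 : u ^ k ≤ u ^ K := pow_le_pow_right₀ hu hk.le
    have e3 : 0 ≤ (x / u) ^ k / (k.factorial : ℝ) := by positivity
    exact mul_le_mul_of_nonneg_right e2 e3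
  refine (Finset.sum_le_sum h1).trans ?_
  rw [← Finset.mul_sum]
  exact mul_le_mul_of_nonneg_left (Real.sum_le_exp_of_nonneg (by positivity) K) (by positivity)

/-- the terms of the combined series -/
noncomputable def vt (X K : ℕ) (c z : ℂ) (n : ℕ) : ℂ :=
  ∑ k ∈ Finset.range K, ((-z) ^ k / (k.factorial : ℂ)) *
    (aX X n * (Real.log n : ℂ) ^ k * (n : ℂ) ^ (-c))

lemma hasSum_vt (X K : ℕ) {c : ℂ} (z : ℂ) (hc : 1 < c.re) :
    HasSum (vt X K c z) (∑ k ∈ Finset.range K, tc (FX X) c k * z ^ k) := by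
  have h := hasSum_sum (s := Finset.range K) (f := fun (k n : ℕ) =>
    ((-z) ^ k / (k.factorial : ℂ)) * (aX X n * (Real.log n : ℂ) ^ k * (n : ℂ) ^ (-c)))
    (a := fun k => ((-z) ^ k / (k.factorial : ℂ)) *
      ((-1) ^ k * (k.factorial : ℂ) * tc (fun s => riemannZeta s * MX X s) c k))
    (fun k _ => (hasSum_tc_F X k hc).mul_left _)
  convert! h using 1
  refine Finset.sum_congr rfl fun k _ => ?_
  have h1 : (k.factorial : ℂ) ≠ 0 := by exact_mod_cast Nat.factorial_ne_zero k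
  have h2 : ((-1 : ℂ) ^ k) * (-1) ^ k = 1 := by rw [← mul_pow]; norm_num
  have h3 : tc (FX X) c k = tc (fun s => riemannZeta s * MX X s) c k := rfl
  rw [h3, neg_pow z]
  calc tc (fun s => riemannZeta s * MX X s) c k * z ^ k
      = (((-1 : ℂ) ^ k) * (-1) ^ k) * ((k.factorial : ℂ) * (k.factorial : ℂ)⁻¹) * z ^ k *
        tc (fun s => riemannZeta s * MX X s) c k := by
        rw [h2, mul_inv_cancel₀ h1]; ring
    _ = _ := by
        rw [div_eq_mul_inv]; ring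

lemma sum_head (X Z K : ℕ) (c z : ℂ) (hX : 1 ≤ X) (hXZ : X ≤ Z) (hK : 1 ≤ K) :
    ∑ n ∈ Finset.range (Z + 1), vt X K c z n = 1 + ∑ n ∈ Finset.Ioc X Z, vt X K c z n := by
  have e1 : Finset.range (Z + 1) = (Finset.range (X + 1)) ∪ (Finset.Ioc X Z) := by
    ext n
    simp only [Finset.mem_range, Finset.mem_union, Finset.mem_Ioc]
    omega
  have e2 : Disjoint (Finset.range (X + 1)) (Finset.Ioc X Z) := by
    rw [Finset.disjoint_left]
    intro n
    simp only [Finset.mem_range, Finset.mem_Ioc]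
    omega
  rw [e1, Finset.sum_union e2]
  congr 1
  rw [Finset.sum_eq_single 1]
  · unfold vt
    rw [Finset.sum_eq_single 0]
    · simp [aX_one hX]
    · intro k _ hk
      simp [hk]
    · intro h
      exfalso
      apply h
      simp only [Finset.mem_range]
      omega
  · intro n hn hn1
    simp only [Finset.mem_range] at hn
    unfold vt
    refine Finset.sum_eq_zero fun k _ => ?_
    rcases Nat.eq_zero_or_pos n with rfl | hp
    · simp [aX_map_zero]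
    · rw [aX_zero (by omega) (by omega)]
      simp
  · intro hn
    exfalso
    apply hn
    simp only [Finset.mem_range]
    omega

lemma vt_norm {C κ D : ℝ} (hκ : 0 < κ) (hD : 1 ≤ D)
    (hC : ∀ n : ℕ, 1 ≤ n → (n.divisors.card : ℝ) ≤ C * (n : ℝ) ^ (1 / 4 : ℝ))
    {X K n : ℕ} (hn : 1 ≤ n) {t : ℝ} {z : ℂ} (hz : ‖z‖ ≤ 1 / 2 + D) :
    ‖vt X K (cen D t) z n‖ ≤ C * (1 + κ) ^ K *
      (n : ℝ) ^ (-(5 / 4 + (D - 1 / 2 - (1 / 2 + D) / (1 + κ))) : ℝ) := by
  have hn1 : (1 : ℝ) ≤ n := by exact_mod_cast hn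
  have hn0 : (0 : ℝ) < n := by linarith
  have hlog : 0 ≤ Real.log n := Real.log_nonneg hn1
  have h1 : ‖vt X K (cen D t) z n‖ ≤ ‖aX X n‖ * (n : ℝ) ^ (-(1 + D) : ℝ) *
      ∑ k ∈ Finset.range K, (‖z‖ * Real.log n) ^ k / (k.factorial : ℝ) := by
    unfold vt
    rw [Finset.mul_sum]
    refine norm_sum_le_of_le _ fun k _ => le_of_eq ?_
    rw [norm_mul, norm_div, norm_pow, norm_neg, Complex.norm_natCast, norm_mul, norm_mul,
      norm_pow, Complex.norm_real, Real.norm_of_nonneg hlog,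
      Complex.norm_natCast_cpow_of_pos hn, mul_pow]
    simp only [cen, Complex.neg_re]
    ring
  have h2 : ∑ k ∈ Finset.range K, (‖z‖ * Real.log n) ^ k / (k.factorial : ℝ) ≤
      (1 + κ) ^ K * (n : ℝ) ^ ((1 / 2 + D) / (1 + κ) : ℝ) := by
    refine (trunc_exp (by positivity) (by linarith : (1 : ℝ) ≤ 1 + κ) K).trans ?_
    refine mul_le_mul_of_nonneg_left ?_ (by positivity)
    rw [Real.rpow_def_of_pos hn0]
    apply Real.exp_le_exp.2
    rw [div_eq_mul_inv, div_eq_mul_inv]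
    have : ‖z‖ * Real.log n ≤ (1 / 2 + D) * Real.log n := by gcongr
    have h3 : 0 ≤ (1 + κ)⁻¹ := by positivity
    calc ‖z‖ * Real.log n * (1 + κ)⁻¹ ≤ (1 / 2 + D) * Real.log n * (1 + κ)⁻¹ := by gcongr
      _ = _ := by ring
  have h4 := (aX_norm_le X n).trans (hC n hn)
  have hC0 : 0 ≤ C * (n : ℝ) ^ (1 / 4 : ℝ) := (norm_nonneg _).trans h4
  calc ‖vt X K (cen D t) z n‖ ≤ _ := h1
    _ ≤ (C * (n : ℝ) ^ (1 / 4 : ℝ)) * (n : ℝ) ^ (-(1 + D) : ℝ) *
        ((1 + κ) ^ K * (n : ℝ) ^ ((1 / 2 + D) / (1 + κ) : ℝ)) := by gcongr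
    _ = C * (1 + κ) ^ K * ((n : ℝ) ^ (1 / 4 : ℝ) * (n : ℝ) ^ (-(1 + D) : ℝ) *
        (n : ℝ) ^ ((1 / 2 + D) / (1 + κ) : ℝ)) := by ring
    _ = _ := by
        rw [← Real.rpow_add hn0, ← Real.rpow_add hn0]
        congr 2
        ring

end HeadL

open HeadL

theorem head : S_HEAD := by
  intro κ D hκ hκ1 hD hE
  obtain ⟨C, hC1, hC⟩ := div_bound (ε := 1 / 4) (by norm_num)
  have hWs : Summable (fun m : ℕ => 1 / (m : ℝ) ^ (5 / 4 : ℝ)) :=
    Real.summable_one_div_nat_rpow.2 (by norm_num)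
  obtain ⟨W, hW⟩ := hWs
  have hW0 : 0 ≤ W := hW.nonneg fun m => by positivity
  refine ⟨C * (W + 1), by positivity, ?_⟩
  intro X Z K t z hX hXZ hK hz
  set c : ℂ := cen D t with hc
  set E : ℝ := D - 1 / 2 - (1 / 2 + D) / (1 + κ) with hEd
  have hcre : 1 < c.re := by simp [hc, cen]; linarith
  have hs := hasSum_vt X K z hcre
  have h2 : HasSum (fun n => vt X K c z (n + (Z + 1)))
      (∑ k ∈ Finset.range K, tc (FX X) c k * z ^ k -
        ∑ n ∈ Finset.range (Z + 1), vt X K c z n) := (hasSum_nat_add_iff' (Z + 1)).2 hs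
  have hZ1 : 1 ≤ Z := hX.trans hXZ
  have hZr : (1 : ℝ) ≤ Z := by exact_mod_cast hZ1
  have hW2 : HasSum (fun n : ℕ => 1 / ((n + (Z + 1) : ℕ) : ℝ) ^ (5 / 4 : ℝ))
      (W - ∑ m ∈ Finset.range (Z + 1), 1 / (m : ℝ) ^ (5 / 4 : ℝ)) :=
    (hasSum_nat_add_iff' (Z + 1)).2 hW
  have hW3 := hW2.mul_left (C * (1 + κ) ^ K * (Z : ℝ) ^ (-E))
  have h4 : ‖∑ k ∈ Finset.range K, tc (FX X) c k * z ^ k -
        ∑ n ∈ Finset.range (Z + 1), vt X K c z n‖ ≤ C * (1 + κ) ^ K * (Z : ℝ) ^ (-E) * W := by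
    rw [← h2.tsum_eq]
    refine (tsum_of_norm_bounded hW3 ?_).trans ?_
    · intro n
      set m := n + (Z + 1) with hm
      have hm1 : 1 ≤ m := by omega
      have hmr : (1 : ℝ) ≤ m := by exact_mod_cast hm1
      have hm0 : (0 : ℝ) < m := by linarith
      refine (vt_norm hκ hD hC hm1 hz).trans ?_
      rw [← hEd]
      have e3 : (m : ℝ) ^ (-(5 / 4 + E) : ℝ) =
          (m : ℝ) ^ (-E : ℝ) * (1 / (m : ℝ) ^ (5 / 4 : ℝ)) := by
        have e7 : 1 / (m : ℝ) ^ (5 / 4 : ℝ) = (m : ℝ) ^ (-(5 / 4) : ℝ) := by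
          rw [Real.rpow_neg (by linarith), one_div]
        rw [e7, ← Real.rpow_add hm0]
        congr 1
        ring
      rw [e3]
      have e4 : (m : ℝ) ^ (-E : ℝ) ≤ (Z : ℝ) ^ (-E : ℝ) := by
        apply Real.rpow_le_rpow_of_nonpos (by exact_mod_cast hZ1) _ (by linarith)
        have : Z ≤ m := by omega
        exact_mod_cast this
      have e5 : 0 ≤ 1 / (m : ℝ) ^ (5 / 4 : ℝ) := by positivity
      calc C * (1 + κ) ^ K * ((m : ℝ) ^ (-E : ℝ) * (1 / (m : ℝ) ^ (5 / 4 : ℝ)))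
          ≤ C * (1 + κ) ^ K * ((Z : ℝ) ^ (-E : ℝ) * (1 / (m : ℝ) ^ (5 / 4 : ℝ))) := by
            gcongr
        _ = _ := by ring
    · have e6 : W - ∑ m ∈ Finset.range (Z + 1), 1 / (m : ℝ) ^ (5 / 4 : ℝ) ≤ W := by
        have : 0 ≤ ∑ m ∈ Finset.range (Z + 1), 1 / (m : ℝ) ^ (5 / 4 : ℝ) :=
          Finset.sum_nonneg fun m _ => by positivity
        linarith
      gcongr
  rw [sum_head X Z K c z hX hXZ hK] at h4
  have h5 : ∑ n ∈ Finset.Ioc X Z, vt X K c z n =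
      ∑ k ∈ Finset.range K, ((-z) ^ k / (k.factorial : ℂ)) *
        ∑ n ∈ Finset.Ioc X Z, aX X n * (Real.log n : ℂ) ^ k * (n : ℂ) ^ (-c) := by
    unfold vt
    rw [Finset.sum_comm]
    refine Finset.sum_congr rfl fun k _ => ?_
    rw [Finset.mul_sum]
  rw [h5] at h4
  have h6 : 0 ≤ C * (1 + κ) ^ K * (Z : ℝ) ^ (-E) := by positivity
  calc _ = ‖∑ k ∈ Finset.range K, tc (FX X) c k * z ^ k -
        (1 + ∑ k ∈ Finset.range K, ((-z) ^ k / (k.factorial : ℂ)) *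
        ∑ n ∈ Finset.Ioc X Z, aX X n * (Real.log n : ℂ) ^ k * (n : ℂ) ^ (-c))‖ := by
        congr 1
        ring
    _ ≤ C * (1 + κ) ^ K * (Z : ℝ) ^ (-E) * W := h4
    _ ≤ C * (1 + κ) ^ K * (Z : ℝ) ^ (-E) * (W + 1) := by gcongr; linarith
    _ = _ := by ring

end Pool.Agent.Helper32K9.RD
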