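import Pool.Agent.Helper32K9.RD.St

/-!
# [MOM] the fourth moment of the circle means of the mollified zeta function
-/

set_option autoImplicit false

namespace Pool.Agent.Helper32K9.RD

open Complex Metric MeasureTheory Set Filter Topology DH31
open Pool.Agent.Y757.LS (GG pt pt_re pt_im GG_of_ne GG_measurable)
open scoped ENNReal

namespace MomL

lemma circ (D t R θ : ℝ) : circleMap (cen D t) R θ =
    pt (1 / 2 + D + R * Real.cos θ) (t + R * Real.sin θ) := by
  rw [circleMap, Complex.exp_mul_I, ← Complex.ofReal_cos, ← Complex.ofReal_sin]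
  unfold cen pt
  apply Complex.ext
  · simp
    ring
  · simp

lemma zeta_le_GG {z : ℂ} (h2 : 2 ≤ z.im) : ‖riemannZeta z‖ ≤ 3 * ‖GG z‖ := by
  have hne : z ≠ 1 := by
    intro h
    rw [h] at h2
    norm_num at h2
  have hz1 : 0 < ‖z - 1‖ := norm_pos_iff.2 (sub_ne_zero.2 hne)
  have hz3 : z + 3 ≠ 0 := by
    intro h
    have := congrArg Complex.im h
    simp at this
    linarith
  have h3 : ‖z + 3‖ ≤ 3 * ‖z - 1‖ := by
    rw [← pow_le_pow_iff_left₀ (norm_nonneg _) (by positivity) two_ne_zero, mul_pow,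
      ← Complex.normSq_eq_norm_sq, ← Complex.normSq_eq_norm_sq, Complex.normSq_apply,
      Complex.normSq_apply]
    simp only [Complex.add_re, Complex.add_im, Complex.sub_re, Complex.sub_im, Complex.one_re,
      Complex.one_im, Complex.re_ofNat, Complex.im_ofNat]
    nlinarith [sq_nonneg (z.re - 3 / 2)]
  have h4 : ‖z - 1‖ * ‖riemannZeta z‖ = ‖GG z‖ * ‖z + 3‖ := by
    rw [← norm_mul, ← norm_mul, GG_of_ne hne]
    congr 1
    field_simp
  have h5 : ‖z - 1‖ * ‖riemannZeta z‖ ≤ ‖z - 1‖ * (3 * ‖GG z‖) := by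
    rw [h4]
    have := norm_nonneg (GG z)
    nlinarith
  exact le_of_mul_le_mul_left h5 hz1

lemma FX_meas (X : ℕ) : Measurable (FX X) := by
  have h1 : Measurable riemannZeta :=
    measurable_of_continuousOn_compl_singleton 1 fun z hz =>
      (differentiableAt_riemannZeta hz).continuousAt.continuousWithinAt
  exact h1.mul (MX_differentiable X).continuous.measurable

lemma circ_cont (X : ℕ) {D t R : ℝ} (hR : 0 ≤ R) (ht : R < t) :
    Continuous fun θ : ℝ => ‖FX X (circleMap (cen D t) R θ)‖ := by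
  refine Continuous.norm (continuous_iff_continuousAt.2 fun θ => ?_)
  have h1 : 0 < (circleMap (cen D t) R θ).im := by
    rw [circ, pt_im]
    have := Real.neg_one_le_sin θ
    nlinarith
  have h2 : ContinuousAt (FX X) (circleMap (cen D t) R θ) :=
    (zeta_analyticAt h1).continuousAt.mul (MX_differentiable X _).continuousAt
  exact ContinuousAt.comp (g := FX X) h2 (continuous_circleMap _ _).continuousAt

/-- Jensen's inequality in the angle -/
lemma jensen (X : ℕ) {D t R : ℝ} (hR : 0 ≤ R) (ht : R < t) :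
    ENNReal.ofReal (cmean X D R t ^ 4) ≤ ENNReal.ofReal ((2 * Real.pi)⁻¹) *
      ∫⁻ θ in Ioc 0 (2 * Real.pi), ENNReal.ofReal (‖FX X (circleMap (cen D t) R θ)‖ ^ 4) := by
  have hc := circ_cont X (D := D) hR ht
  have hpi := Real.pi_pos
  have hi : IntegrableOn (fun θ : ℝ => ‖FX X (circleMap (cen D t) R θ)‖ ^ 4) (Ioc 0 (2 * Real.pi)) :=
    (hc.pow 4).integrableOn_Ioc
  rw [← ofReal_integral_eq_lintegral_ofReal hi (Eventually.of_forall fun θ => by positivity),
    ← ENNReal.ofReal_mul (by positivity)]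
  apply ENNReal.ofReal_le_ofReal
  have hvol : (volume : Measure ℝ).real (Ioc 0 (2 * Real.pi)) = 2 * Real.pi := by
    rw [measureReal_def, Real.volume_Ioc, sub_zero, ENNReal.toReal_ofReal (by positivity)]
  have h1 := ConvexOn.map_set_average_le (μ := volume) (t := Ioc (0 : ℝ) (2 * Real.pi))
    (s := Ici (0 : ℝ)) (f := fun θ : ℝ => ‖FX X (circleMap (cen D t) R θ)‖) (g := fun x : ℝ => x ^ 4)
    (convexOn_pow 4) (by fun_prop) isClosed_Ici
    (by rw [Real.volume_Ioc]; simp [hpi])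
    (by rw [Real.volume_Ioc]; exact ENNReal.ofReal_ne_top)
    (Eventually.of_forall fun θ => norm_nonneg _) hc.integrableOn_Ioc hi
  rw [setAverage_eq, setAverage_eq, hvol, smul_eq_mul, smul_eq_mul] at h1
  unfold cmean
  rw [intervalIntegral.integral_of_le (by positivity)]
  exact h1

/-- one vertical line -/
lemma line {A D δ : ℝ} (hA : 0 ≤ A) (hD : 1 ≤ D) (hδ : 0 < δ) (hδ2 : δ ≤ 1 / 12)
    (hm : ∀ s : ℝ, δ ≤ s → s ≤ 3 / 2 →
      Pool.Agent.Y757.EM.PB 0 (fun t => ENNReal.ofReal (‖GG (pt s t)‖ ^ (2 * 2))) A 1)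
    {X : ℕ} (hX : 1 ≤ X) {T : ℝ} (hT : 1 ≤ T) (θ : ℝ) :
    ∫⁻ t in Icc (D + 3) T, ENNReal.ofReal (‖FX X (circleMap (cen D t) (1 / 2 + D - δ) θ)‖ ^ 4) ≤
      ENNReal.ofReal ((81 * A + 16) * (5 / 2 + D) * (X : ℝ) ^ 4 * T) := by
  obtain ⟨R, hR⟩ : ∃ R : ℝ, R = 1 / 2 + D - δ := ⟨_, rfl⟩
  rw [← hR]
  have hR0 : 0 ≤ R := by rw [hR]; linarith
  have hs1 := Real.neg_one_le_sin θ
  have hs2 := Real.sin_le_one θ
  have hc1 := Real.neg_one_le_cos θ
  have hc2 := Real.cos_le_one θ
  obtain ⟨s, hs⟩ : ∃ s : ℝ, s = 1 / 2 + D + R * Real.cos θ := ⟨_, rfl⟩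
  have hsδ : δ ≤ s := by rw [hs]; nlinarith
  have hX0 : (0 : ℝ) ≤ X := Nat.cast_nonneg X
  have him : ∀ t ∈ Icc (D + 3) T, 2 ≤ t + R * Real.sin θ := by
    intro t ht
    have := ht.1
    nlinarith
  have hMX : ∀ t, ‖MX X (pt s (t + R * Real.sin θ))‖ ≤ X := fun t =>
    MX_norm_le X (by rw [pt_re]; linarith)
  rcases le_or_gt s (3 / 2) with h | h
  · have h0 := hm s hsδ h (T + R) (by linarith)
    rw [Real.rpow_one] at h0
    calc ∫⁻ t in Icc (D + 3) T, ENNReal.ofReal (‖FX X (circleMap (cen D t) R θ)‖ ^ 4)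
        ≤ ∫⁻ t in Icc (D + 3) T, ENNReal.ofReal (81 * (X : ℝ) ^ 4) *
            (Icc (-(T + R)) (T + R)).indicator
              (fun t => ENNReal.ofReal (‖GG (pt s t)‖ ^ (2 * 2))) (t + R * Real.sin θ) := by
          refine setLIntegral_mono' measurableSet_Icc fun t ht => ?_
          have hmem : t + R * Real.sin θ ∈ Icc (-(T + R)) (T + R) := by
            have := him t ht
            have := ht.2
            constructor <;> nlinarith
          rw [indicator_of_mem hmem, ← ENNReal.ofReal_mul (by positivity)]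
          apply ENNReal.ofReal_le_ofReal
          rw [circ, ← hs, FX, norm_mul, mul_pow]
          have h2 := zeta_le_GG (z := pt s (t + R * Real.sin θ)) (by rw [pt_im]; exact him t ht)
          have h3 := hMX t
          calc ‖riemannZeta (pt s (t + R * Real.sin θ))‖ ^ 4 * ‖MX X (pt s (t + R * Real.sin θ))‖ ^ 4
              ≤ (3 * ‖GG (pt s (t + R * Real.sin θ))‖) ^ 4 * (X : ℝ) ^ 4 := by gcongr
            _ = 81 * (X : ℝ) ^ 4 * ‖GG (pt s (t + R * Real.sin θ))‖ ^ (2 * 2) := by ring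
      _ ≤ ∫⁻ t, ENNReal.ofReal (81 * (X : ℝ) ^ 4) *
            (Icc (-(T + R)) (T + R)).indicator
              (fun t => ENNReal.ofReal (‖GG (pt s t)‖ ^ (2 * 2))) (t + R * Real.sin θ) :=
          setLIntegral_le_lintegral _ _
      _ = ENNReal.ofReal (81 * (X : ℝ) ^ 4) *
            ∫⁻ t in Icc (-(T + R)) (T + R), ENNReal.ofReal (‖GG (pt s t)‖ ^ (2 * 2)) := by
          rw [lintegral_const_mul' _ _ ENNReal.ofReal_ne_top, lintegral_add_right_eq_self
            (fun t => (Icc (-(T + R)) (T + R)).indicator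
              (fun t => ENNReal.ofReal (‖GG (pt s t)‖ ^ (2 * 2))) t) (R * Real.sin θ),
            lintegral_indicator measurableSet_Icc]
      _ ≤ ENNReal.ofReal (81 * (X : ℝ) ^ 4) * ENNReal.ofReal (A * (1 + (T + R))) := by gcongr
      _ ≤ _ := by
          rw [← ENNReal.ofReal_mul (by positivity)]
          apply ENNReal.ofReal_le_ofReal
          have h3 : 1 + (T + R) ≤ (5 / 2 + D) * T := by
            have : 1 + R ≤ (3 / 2 + D) := by rw [hR]; linarith
            nlinarith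
          calc 81 * (X : ℝ) ^ 4 * (A * (1 + (T + R))) ≤ 81 * (X : ℝ) ^ 4 * (A * ((5 / 2 + D) * T)) := by
                gcongr
            _ = (81 * A) * (5 / 2 + D) * (X : ℝ) ^ 4 * T := by ring
            _ ≤ _ := by gcongr; linarith
  · calc ∫⁻ t in Icc (D + 3) T, ENNReal.ofReal (‖FX X (circleMap (cen D t) R θ)‖ ^ 4)
        ≤ ∫⁻ t in Icc (D + 3) T, ENNReal.ofReal (16 * (X : ℝ) ^ 4) := by
          refine setLIntegral_mono' measurableSet_Icc fun t ht => ?_
          apply ENNReal.ofReal_le_ofReal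
          rw [circ, ← hs, FX, norm_mul, mul_pow]
          have h2 := (Pool.Agent.Y757.EM.zeta_sub_DN (N := 1) le_rfl
            (z := pt s (t + R * Real.sin θ)) (by rw [pt_re]; linarith)).2.1
          have h3 := hMX t
          calc ‖riemannZeta (pt s (t + R * Real.sin θ))‖ ^ 4 * ‖MX X (pt s (t + R * Real.sin θ))‖ ^ 4
              ≤ 2 ^ 4 * (X : ℝ) ^ 4 := by gcongr
            _ = 16 * (X : ℝ) ^ 4 := by norm_num
      _ = ENNReal.ofReal (16 * (X : ℝ) ^ 4) * ENNReal.ofReal (T - (D + 3)) := by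
          rw [setLIntegral_const, Real.volume_Icc]
      _ ≤ _ := by
          rw [← ENNReal.ofReal_mul (by positivity)]
          apply ENNReal.ofReal_le_ofReal
          calc 16 * (X : ℝ) ^ 4 * (T - (D + 3)) ≤ 16 * (X : ℝ) ^ 4 * T := by
                gcongr; linarith
            _ = 16 * 1 * (X : ℝ) ^ 4 * T := by ring
            _ ≤ _ := by
                gcongr
                · linarith
                · linarith

end MomL

open MomL

theorem mom : S_MOM := by
  intro D δ hD hδ hδ2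
  obtain ⟨A, hA, hA2⟩ := Pool.Agent.Y757.EM.mom (k := 2) (by norm_num) Pool.Agent.Y757.EM.hyp2 hδ
  refine ⟨(81 * A + 16) * (5 / 2 + D), by positivity, fun X T hX hT => ?_⟩
  obtain ⟨R, hR⟩ : ∃ R : ℝ, R = 1 / 2 + D - δ := ⟨_, rfl⟩
  have hR0 : 0 ≤ R := by rw [hR]; linarith
  have hpi := Real.pi_pos
  have hmeas : Measurable fun p : ℝ × ℝ =>
      ENNReal.ofReal (‖FX X (circleMap (cen D p.1) R p.2)‖ ^ 4) := by
    have h1 : Measurable fun p : ℝ × ℝ => circleMap (cen D p.1) R p.2 := by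
      have h2 : (fun p : ℝ × ℝ => circleMap (cen D p.1) R p.2) = fun p =>
          pt (1 / 2 + D + R * Real.cos p.2) (p.1 + R * Real.sin p.2) := by
        funext p; exact circ _ _ _ _
      rw [h2]
      unfold pt
      fun_prop
    exact ((((FX_meas X).comp h1).norm).pow_const 4).ennreal_ofReal
  calc ∫⁻ t in Icc (D + 3) T, ENNReal.ofReal (cmean X D (1 / 2 + D - δ) t ^ 4)
      ≤ ∫⁻ t in Icc (D + 3) T, ENNReal.ofReal ((2 * Real.pi)⁻¹) *
          ∫⁻ θ in Ioc 0 (2 * Real.pi), ENNReal.ofReal (‖FX X (circleMap (cen D t) R θ)‖ ^ 4) := by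
        refine setLIntegral_mono' measurableSet_Icc fun t ht => ?_
        rw [← hR]
        exact jensen X hR0 (by have := ht.1; rw [hR]; linarith)
    _ = ENNReal.ofReal ((2 * Real.pi)⁻¹) * ∫⁻ θ in Ioc 0 (2 * Real.pi),
          ∫⁻ t in Icc (D + 3) T, ENNReal.ofReal (‖FX X (circleMap (cen D t) R θ)‖ ^ 4) := by
        rw [lintegral_const_mul' _ _ ENNReal.ofReal_ne_top]
        congr 1
        exact lintegral_lintegral_swap (f := fun t θ =>
          ENNReal.ofReal (‖FX X (circleMap (cen D t) R θ)‖ ^ 4)) hmeas.aemeasurable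
    _ ≤ ENNReal.ofReal ((2 * Real.pi)⁻¹) * ∫⁻ θ in Ioc 0 (2 * Real.pi),
          ENNReal.ofReal ((81 * A + 16) * (5 / 2 + D) * (X : ℝ) ^ 4 * T) := by
        gcongr with θ
        rw [hR]
        exact line hA hD hδ hδ2 hA2 hX hT θ
    _ = _ := by
        rw [setLIntegral_const, Real.volume_Ioc, sub_zero, mul_comm, mul_assoc,
          ← ENNReal.ofReal_mul (by positivity), mul_inv_cancel₀ (by positivity), ENNReal.ofReal_one,
          mul_one]

end Pool.Agent.Helper32K9.RD
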