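import Pool.Agent.Helper32K9.RD.St

/-! # Leaf QH: the exponents for `√T ≤ H ≤ T^(2/3)`, `σ ≥ 3/4` -/

set_option autoImplicit false

namespace Pool.Agent.Helper32K9.RD

open Complex Metric MeasureTheory Set Filter Topology DH31

namespace QhL

theorem pow_le {T H x : ℝ} (hT : 1 ≤ T) (hH1 : 1 ≤ H) (hH : H ≤ T ^ (2 / 3 : ℝ)) (hx : x ≤ 0) :
    T ^ (2 / 3 * x) ≤ H ^ x := by
  have hT0 : (0 : ℝ) ≤ T := by linarith
  rw [Real.rpow_mul hT0]
  exact Real.rpow_le_rpow_of_nonpos (by linarith) hH hx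

end QhL

open QhL in
/-- **QH** -/
theorem qh : S_QH := by
  intro T H σ hT hTH hH hσ hσ1
  have hT0 : (0 : ℝ) < T := by linarith
  have hH1 : 1 ≤ H := by
    refine le_trans ?_ hTH
    rw [← Real.sqrt_one]
    exact Real.sqrt_le_sqrt hT
  have hH0 : 0 < H := by linarith
  have hHT : H ≤ T := hH.trans (by
    calc T ^ (2 / 3 : ℝ) ≤ T ^ (1 : ℝ) := Real.rpow_le_rpow_of_exponent_le hT (by norm_num)
      _ = T := Real.rpow_one T)
  have h1 : T ^ (2 / 3 * (1 - 2 * σ)) * H ≤ H ^ (2 * (1 - σ)) := by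
    have h2 := pow_le hT hH1 hH (show 1 - 2 * σ ≤ 0 by linarith)
    calc T ^ (2 / 3 * (1 - 2 * σ)) * H ≤ H ^ (1 - 2 * σ) * H ^ (1 : ℝ) := by
          rw [Real.rpow_one]
          exact mul_le_mul_of_nonneg_right h2 hH0.le
      _ = H ^ (2 * (1 - σ)) := by
          rw [← Real.rpow_add hH0]
          congr 1
          ring
  have h2 : T ^ (1 - 4 * σ / 3) * Real.sqrt H ≤ H ^ (2 * (1 - σ)) := by
    have h3 := pow_le hT hH1 hH (show 3 / 2 - 2 * σ ≤ 0 by linarith)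
    have e : 2 / 3 * (3 / 2 - 2 * σ) = 1 - 4 * σ / 3 := by ring
    rw [e] at h3
    calc T ^ (1 - 4 * σ / 3) * Real.sqrt H ≤ H ^ (3 / 2 - 2 * σ) * H ^ (1 / 2 : ℝ) := by
          rw [Real.sqrt_eq_rpow]
          exact mul_le_mul_of_nonneg_right h3 (Real.rpow_nonneg hH0.le _)
      _ = H ^ (2 * (1 - σ)) := by
          rw [← Real.rpow_add hH0]
          congr 1
          ring
  have h3 : T ^ (3 / 2 - 2 * σ) * Real.sqrt H ≤ H ^ (2 * (1 - σ)) := by
    have h4 : T ^ (3 / 2 - 2 * σ) ≤ H ^ (3 / 2 - 2 * σ) :=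
      Real.rpow_le_rpow_of_nonpos hH0 hHT (by linarith)
    calc T ^ (3 / 2 - 2 * σ) * Real.sqrt H ≤ H ^ (3 / 2 - 2 * σ) * H ^ (1 / 2 : ℝ) := by
          rw [Real.sqrt_eq_rpow]
          exact mul_le_mul_of_nonneg_right h4 (Real.rpow_nonneg hH0.le _)
      _ = H ^ (2 * (1 - σ)) := by
          rw [← Real.rpow_add hH0]
          congr 1
          ring
  unfold QQ
  rw [add_mul]
  linarith

end Pool.Agent.Helper32K9.RD
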