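import Pool.Agent.Helper32K9.RD.St

/-! # Leaf RICH: the zeros with many neighbours -/

set_option autoImplicit false

namespace Pool.Agent.Helper32K9.RD

open Complex Metric MeasureTheory Set Filter Topology DH31

namespace RichL

theorem QQ_pos {T H : ℝ} (hT : 0 < T) (hH : 0 < H) (σ : ℝ) : 0 < QQ T H σ := by
  unfold QQ
  have h1 := Real.rpow_pos_of_pos hT (2 / 3 * (1 - 2 * σ))
  have h2 := Real.rpow_pos_of_pos hT (1 - 4 * σ / 3)
  have h3 := Real.rpow_pos_of_pos hT (3 / 2 - 2 * σ)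
  have h4 := Real.sqrt_pos.mpr hH
  positivity

/-- one cell -/
def cell (σ T H : ℝ) (k : ℕ) : Set ℂ := {ρ : ℂ | ρ ∈ zeros σ T ∧ ⌊ρ.im / H⌋₊ = k}

/-- a union of cells -/
def cellU (σ T H : ℝ) (J : Finset ℕ) : Set ℂ := {ρ : ℂ | ρ ∈ zeros σ T ∧ ⌊ρ.im / H⌋₊ ∈ J}

theorem cell_fin (σ T H : ℝ) (k : ℕ) : (cell σ T H k).Finite :=
  (zeros_finite σ T).subset fun _ h => h.1

theorem cellU_fin (σ T H : ℝ) (J : Finset ℕ) : (cellU σ T H J).Finite :=
  (zeros_finite σ T).subset fun _ h => h.1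

theorem cnt_cellU (σ T H : ℝ) (J : Finset ℕ) :
    cnt (cellU σ T H J) = ∑ k ∈ J, cnt (cell σ T H k) := by
  classical
  rw [cnt_eq (cellU_fin σ T H J)]
  rw [← Finset.sum_fiberwise_of_maps_to (g := fun ρ : ℂ => ⌊ρ.im / H⌋₊) (t := J)
    (fun ρ hρ => by
      rw [Set.Finite.mem_toFinset] at hρ
      exact hρ.2)]
  refine Finset.sum_congr rfl fun k hk => ?_
  rw [cnt_eq (cell_fin σ T H k)]
  refine Finset.sum_congr ?_ fun _ _ => rfl
  ext ρ
  rw [Finset.mem_filter, Set.Finite.mem_toFinset, Set.Finite.mem_toFinset]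
  constructor
  · rintro ⟨h1, h2⟩
    exact ⟨h1.1, h2⟩
  · rintro ⟨h1, h2⟩
    refine ⟨⟨h1, ?_⟩, h2⟩
    rw [h2]
    exact hk

theorem cnt_pos_nonempty {A : Set ℂ} (h : 0 < cnt A) : A.Nonempty := by
  by_contra hne
  rw [Set.not_nonempty_iff_eq_empty] at hne
  rw [hne] at h
  unfold cnt at h
  simp at h

end RichL

open RichL in
/-- **RICH** -/
theorem rich (asm : S_ASM) : S_RICH := by
  classical
  intro ε hε
  obtain ⟨C, T₀, hC, h⟩ := asm (ε / 2) (by linarith)
  refine ⟨4 * C, max T₀ (max 1 ((6 * C) ^ (2 / ε))), by positivity,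
    fun T hT σ h1 h2 H hH => ?_⟩
  have hT1 : 1 ≤ T := ((le_max_left _ _).trans (le_max_right _ _)).trans hT
  have hT0 : (0 : ℝ) < T := by linarith
  have hT2 : (6 * C) ^ (2 / ε) ≤ T := ((le_max_right _ _).trans (le_max_right _ _)).trans hT
  have hH0 : 0 < H := lt_of_lt_of_le (Real.sqrt_pos.mpr hT0) hH
  set E : ℝ := T ^ (ε / 2) with hE
  have hE0 : 0 < E := Real.rpow_pos_of_pos hT0 _
  have hEE : T ^ ε = E * E := by
    rw [hE, ← Real.rpow_add hT0]
    congr 1
    ring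
  have hCE : 6 * C ≤ E := by
    have h3 : ((6 * C) ^ (2 / ε)) ^ (ε / 2) ≤ T ^ (ε / 2) :=
      Real.rpow_le_rpow (by positivity) hT2 (by linarith)
    rw [← Real.rpow_mul (by positivity)] at h3
    have e : 2 / ε * (ε / 2) = 1 := by field_simp
    rw [e, Real.rpow_one] at h3
    exact h3
  have hE1 : 1 ≤ E := Real.one_le_rpow hT1 (by linarith)
  set Q : ℝ := QQ T H σ with hQ
  have hQ0 : 0 < Q := QQ_pos hT0 hH0 σ
  set S : ℝ := T ^ (2 * (1 - σ)) with hS
  have hS0 : 0 < S := Real.rpow_pos_of_pos hT0 _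
  set N : ℕ → ℝ := fun k => (cnt (cell σ T H k) : ℝ) with hN
  have hN0 : ∀ k, 0 ≤ N k := fun k => Nat.cast_nonneg _
  set J : Finset ℕ := (Finset.range (⌊T / H⌋₊ + 1)).filter fun k => E * E * Q ≤ 3 * N k with hJ
  -- the number of the rich cells
  have hTT : T₀ ≤ T := (le_max_left _ _).trans hT
  have hJ1 : (J.card : ℝ) * Q ≤ S := by
    have h3 : (J.card : ℝ) * (E * E * Q) ≤ 3 * ∑ k ∈ J, N k := by
      rw [Finset.mul_sum, ← nsmul_eq_mul, ← Finset.sum_const]
      exact Finset.sum_le_sum fun k hk => (Finset.mem_filter.mp hk).2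
    have h4 : ∑ k ∈ J, N k ≤ C * E * (S + J.card * Q) := by
      have h5 := h T hTT σ h1 h2 H hH J
      have h6 : ∑ k ∈ J, N k = (cnt (cellU σ T H J) : ℝ) := by
        rw [cnt_cellU]
        push_cast
        rfl
      rw [h6]
      exact h5
    have h5 : (J.card : ℝ) * (E * E * Q) ≤ 3 * C * E * S + 3 * C * E * (J.card * Q) := by
      calc (J.card : ℝ) * (E * E * Q) ≤ 3 * (C * E * (S + J.card * Q)) := by linarith
        _ = _ := by ring
    have hq : (0 : ℝ) ≤ J.card * Q := by positivity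
    -- `3 C E ≤ E² / 2`
    have h6 : 3 * C * E * (J.card * Q) ≤ E * E / 2 * (J.card * Q) := by
      refine mul_le_mul_of_nonneg_right ?_ hq
      nlinarith
    have h7 : 3 * C * E * S ≤ E * E / 2 * S := by
      refine mul_le_mul_of_nonneg_right ?_ hS0.le
      nlinarith
    have h8 : E * E / 2 * (J.card * Q) ≤ E * E / 2 * S := by
      have e : (J.card : ℝ) * (E * E * Q) =
          E * E / 2 * (J.card * Q) + E * E / 2 * (J.card * Q) := by ring
      linarith
    exact le_of_mul_le_mul_left h8 (by positivity)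
  -- the neighbours
  set J' : Finset ℕ := J ∪ (J.image (fun k => k + 1) ∪ J.image (fun k => k - 1)) with hJ'
  have hcard : (J'.card : ℝ) ≤ 3 * J.card := by
    have h3 : J'.card ≤ J.card + (J.card + J.card) :=
      (Finset.card_union_le _ _).trans (add_le_add le_rfl ((Finset.card_union_le _ _).trans
        (add_le_add Finset.card_image_le Finset.card_image_le)))
    have h4 : (J'.card : ℝ) ≤ (J.card + (J.card + J.card) : ℕ) := by exact_mod_cast h3
    push_cast at h4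
    linarith
  have hmemJ : ∀ k, E * E * Q ≤ 3 * N k → k ∈ J := by
    intro k hk
    rw [hJ, Finset.mem_filter]
    refine ⟨?_, hk⟩
    have h3 : 0 < N k := by
      have : 0 < E * E * Q := by positivity
      linarith
    have h4 : 0 < cnt (cell σ T H k) := by
      have h3' : (0 : ℝ) < (cnt (cell σ T H k) : ℝ) := h3
      exact_mod_cast h3'
    obtain ⟨ρ, hρ, hρk⟩ := cnt_pos_nonempty h4
    rw [Finset.mem_range, ← hρk]
    have h5 : ⌊ρ.im / H⌋₊ ≤ ⌊T / H⌋₊ :=
      Nat.floor_mono (div_le_div_of_nonneg_right hρ.2.2.2 hH0.le)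
    omega
  have hsub : {ρ : ℂ | ρ ∈ zeros σ T ∧ T ^ ε * QQ T H σ ≤
      (cnt {s : ℂ | s ∈ zeros σ T ∧ |s.im - ρ.im| ≤ H} : ℝ)} ⊆ cellU σ T H J' := by
    rintro ρ ⟨hρ, hrich⟩
    refine ⟨hρ, ?_⟩
    rw [hEE, ← hQ] at hrich
    set k : ℕ := ⌊ρ.im / H⌋₊ with hk
    have hnb : {s : ℂ | s ∈ zeros σ T ∧ |s.im - ρ.im| ≤ H} ⊆
        cellU σ T H {k - 1, k, k + 1} := by
      rintro s ⟨hs, hsρ⟩
      refine ⟨hs, ?_⟩
      rw [abs_le] at hsρ
      have hs0 : 0 < s.im := hs.2.2.1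
      have hρ0 : 0 < ρ.im := hρ.2.2.1
      have h5 : ⌊s.im / H⌋₊ ≤ k + 1 := by
        rw [hk, ← Nat.floor_add_one (by positivity)]
        refine Nat.floor_mono ?_
        rw [div_add_one hH0.ne', div_le_div_iff_of_pos_right hH0]
        linarith
      have h6 : k ≤ ⌊s.im / H⌋₊ + 1 := by
        rw [hk, ← Nat.floor_add_one (by positivity)]
        refine Nat.floor_mono ?_
        rw [div_add_one hH0.ne', div_le_div_iff_of_pos_right hH0]
        linarith
      simp only [Finset.mem_insert, Finset.mem_singleton]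
      omega
    have h5 : (cnt {s : ℂ | s ∈ zeros σ T ∧ |s.im - ρ.im| ≤ H} : ℝ) ≤
        ∑ k' ∈ ({k - 1, k, k + 1} : Finset ℕ), N k' := by
      have h6 := cnt_mono (cellU_fin σ T H {k - 1, k, k + 1}) hnb
      rw [cnt_cellU] at h6
      have h7 : (cnt {s : ℂ | s ∈ zeros σ T ∧ |s.im - ρ.im| ≤ H} : ℝ) ≤
        ((∑ k' ∈ ({k - 1, k, k + 1} : Finset ℕ), cnt (cell σ T H k') : ℕ) : ℝ) := by
        exact_mod_cast h6
      rw [Nat.cast_sum] at h7
      exact h7
    obtain ⟨k', hk', hk'J⟩ : ∃ k' ∈ ({k - 1, k, k + 1} : Finset ℕ), k' ∈ J := by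
      by_contra hcon
      push Not at hcon
      have h6 : ∀ k' ∈ ({k - 1, k, k + 1} : Finset ℕ), N k' < E * E * Q / 3 := by
        intro k' hk'
        by_contra hge
        exact hcon k' hk' (hmemJ k' (by linarith [not_lt.mp hge]))
      have h7 : ∑ k' ∈ ({k - 1, k, k + 1} : Finset ℕ), N k' <
          ∑ _k' ∈ ({k - 1, k, k + 1} : Finset ℕ), E * E * Q / 3 :=
        Finset.sum_lt_sum_of_nonempty ⟨k, by simp⟩ h6
      rw [Finset.sum_const, nsmul_eq_mul] at h7
      have h8 : ((({k - 1, k, k + 1} : Finset ℕ).card : ℕ) : ℝ) ≤ 3 := by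
        exact_mod_cast Finset.card_le_three
      have h9 : 0 < E * E * Q := by positivity
      nlinarith
    rw [hJ', Finset.mem_union, Finset.mem_union, Finset.mem_image, Finset.mem_image]
    simp only [Finset.mem_insert, Finset.mem_singleton] at hk'
    rcases hk' with h6 | h6 | h6
    · rcases Nat.eq_zero_or_pos k with h7 | h7
      · left
        have : k' = k := by omega
        rwa [this] at hk'J
      · exact Or.inr (Or.inl ⟨k', hk'J, by omega⟩)
    · left
      rwa [h6] at hk'J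
    · exact Or.inr (Or.inr ⟨k', hk'J, by omega⟩)
  have h3 := cnt_mono (cellU_fin σ T H J') hsub
  have h4 := h T hTT σ h1 h2 H hH J'
  have h5 : (cnt {ρ : ℂ | ρ ∈ zeros σ T ∧ T ^ ε * QQ T H σ ≤
      (cnt {s : ℂ | s ∈ zeros σ T ∧ |s.im - ρ.im| ≤ H} : ℝ)} : ℝ) ≤
      C * E * (S + J'.card * Q) := by
    refine le_trans ?_ h4
    exact_mod_cast h3
  refine h5.trans ?_
  have h6 : (J'.card : ℝ) * Q ≤ 3 * S := by
    have := mul_le_mul_of_nonneg_right hcard hQ0.le
    linarith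
  have h7 : T ^ (2 * (1 - σ) + ε) = S * (E * E) := by
    rw [Real.rpow_add hT0, hEE]
  rw [h7]
  calc C * E * (S + J'.card * Q) ≤ C * E * (4 * S) :=
        mul_le_mul_of_nonneg_left (by linarith) (by positivity)
    _ = 4 * C * S * E * 1 := by ring
    _ ≤ 4 * C * S * E * E := mul_le_mul_of_nonneg_left hE1 (by positivity)
    _ = 4 * C * (S * (E * E)) := by ring

end Pool.Agent.Helper32K9.RD
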