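import Pool.Agent.H31R2.DH.Assemble
import Pool.Agent.W170.MV.Final
import Pool.Agent.Y757.EM.Mom

/-!
# Zeros of zeta in unions of intervals: definitions and statements of the steps
-/

set_option autoImplicit false

namespace Pool.Agent.Helper32K9.RD

open Complex Metric MeasureTheory Set Filter Topology DH31
open Pool.Agent.W170.MV (C1 cells)

/-- the (far) centre -/
noncomputable def cen (D t : ℝ) : ℂ := ⟨1 + D, t⟩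

/-- the mollified zeta function -/
noncomputable def FX (X : ℕ) (s : ℂ) : ℂ := riemannZeta s * MX X s

/-- the mean of the absolute value of the mollified zeta function over a circle -/
noncomputable def cmean (X : ℕ) (D R t : ℝ) : ℝ :=
  (2 * Real.pi)⁻¹ * ∫ θ in (0 : ℝ)..(2 * Real.pi), ‖FX X (circleMap (cen D t) R θ)‖

/-- number of Taylor coefficients -/
noncomputable def KN (D δ T : ℝ) : ℕ := ⌈(1 / 2 + D - δ) / 2 * Real.log T⌉₊ + 2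

/-- length of the mollifier -/
noncomputable def XN (η T : ℝ) : ℕ := ⌊T ^ η⌋₊

/-- length of the Dirichlet polynomials -/
noncomputable def ZN (κ T : ℝ) : ℕ := ⌊T ^ (1 / 2 + κ)⌋₊

/-- the quantity which multiplies the number of the intervals -/
noncomputable def QQ (T H σ : ℝ) : ℝ :=
  T ^ (2 / 3 * (1 - 2 * σ)) * H + (T ^ (1 - 4 * σ / 3) + T ^ (3 / 2 - 2 * σ)) * Real.sqrt H

/-- [CAU] the tail of the Taylor series, with the mean over the circle (as `DH31.tail_le`; use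
`norm_cauchyPowerSeries_le` and `DifferentiableOn.hasFPowerSeriesOnBall` or the Cauchy formula) -/
def S_CAU : Prop := ∀ (f : ℂ → ℂ) (c z : ℂ) (r s R : ℝ), 0 < s → 0 ≤ r → r < s → s < R →
  DifferentiableOn ℂ f (ball c R) → ‖z - c‖ ≤ r → ∀ K : ℕ,
  ‖f z - ∑ n ∈ Finset.range K, tc f c n * (z - c) ^ n‖ ≤
    ((2 * Real.pi)⁻¹ * ∫ θ in (0 : ℝ)..(2 * Real.pi), ‖f (circleMap c s θ)‖) * (r / s) ^ K /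
      (1 - r / s)

/-- [HEAD] the truncated Taylor series of the mollified zeta function as a Dirichlet polynomial.
By `DH31.hasSum_tc_F` it is `∑ aX n n^(-c) E_K(-z log n)`, `E_K` the truncated exponential series;
`|E_K(w)| ≤ u^K exp(|w|/u)`, `u = 1 + κ`; `d(n) ≤ C n^(1/4)` (`DH31.div_bound`); `aX_one`, `aX_zero`. -/
def S_HEAD : Prop := ∀ κ D : ℝ, 0 < κ → κ ≤ 1 → 1 ≤ D → 0 ≤ D - 1 / 2 - (1 / 2 + D) / (1 + κ) →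
  ∃ C : ℝ, 0 < C ∧ ∀ (X Z K : ℕ) (t : ℝ) (z : ℂ), 1 ≤ X → X ≤ Z → 1 ≤ K → ‖z‖ ≤ 1 / 2 + D →
  ‖∑ k ∈ Finset.range K, tc (FX X) (cen D t) k * z ^ k - 1 -
      ∑ k ∈ Finset.range K, ((-z) ^ k / (k.factorial : ℂ)) *
        ∑ n ∈ Finset.Ioc X Z, aX X n * (Real.log n : ℂ) ^ k * (n : ℂ) ^ (-(cen D t))‖ ≤
    C * (1 + κ) ^ K * (Z : ℝ) ^ (-(D - 1 / 2 - (1 / 2 + D) / (1 + κ)))

/-- [DET] detection of the zeros -/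
def S_DET : Prop := ∀ κ D δ η : ℝ, 0 < κ → κ ≤ 1 / 12 → 20 / κ ^ 2 ≤ D → 0 < δ → δ ≤ 1 / 12 →
  0 < η → η ≤ 1 / 4 →
  ∃ T₀ : ℝ, 1 ≤ T₀ ∧ ∀ T : ℝ, T₀ ≤ T → ∀ σ : ℝ, 1 / 2 + 2 * δ ≤ σ → σ ≤ 1 →
    ∀ ρ : ℂ, riemannZeta ρ = 0 → σ ≤ ρ.re → ρ.re ≤ 1 → D + 3 ≤ ρ.im →
    ∀ t : ℝ, ρ.im ≤ t → t ≤ ρ.im + 1 / (KN D δ T : ℝ) →
    T ^ ((σ - 1 / 2) / 2 - δ) ≤ cmean (XN η T) D (1 / 2 + D - δ) t ∨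
    ∃ k < KN D δ T, 1 / (4 * (KN D δ T : ℝ)) ≤
      ‖∑ n ∈ Finset.Ioc (XN η T) (ZN κ T), bc D σ k (XN η T) n * (n : ℂ) ^ (-(t : ℂ) * I)‖

/-- [MOM] fourth moment of the circle means. Jensen/Hölder in the angle, Tonelli, on each vertical line
`Re = x`, `1/2 + δ ≤ x ≤ 2` Carlson's theorem `Pool.Agent.Y757.EM.mom` with `hyp2` (for
`GG z = (z-1)/(z+3) ζ(z)`, `|ζ| ≤ 2|GG|` for `Im z ≥ 2`), for `x ≥ 2` a trivial bound; `|MX X s| ≤ X`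
(`DH31.MX_norm_le`). -/
def S_MOM : Prop := ∀ D δ : ℝ, 1 ≤ D → 0 < δ → δ ≤ 1 / 12 → ∃ A : ℝ, 0 < A ∧
  ∀ (X : ℕ) (T : ℝ), 1 ≤ X → 1 ≤ T →
    ∫⁻ t in Icc (D + 3) T, ENNReal.ofReal (cmean X D (1 / 2 + D - δ) t ^ 4) ≤
      ENNReal.ofReal (A * (X : ℝ) ^ 4 * T)

/-- [CLII] number of the unit intervals with a zero of the second class -/
def S_CLII : Prop := ∀ D δ η : ℝ, 1 ≤ D → 0 < δ → δ ≤ 1 / 12 → 0 < η → η ≤ 1 / 4 →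
  ∃ C T₀ : ℝ, 0 < C ∧ 1 ≤ T₀ ∧ ∀ T : ℝ, T₀ ≤ T → ∀ σ : ℝ, 1 / 2 ≤ σ → σ ≤ 1 →
    ∀ (S : Finset ℕ) (γ : ℕ → ℝ), (∀ n ∈ S, (n : ℝ) ≤ γ n ∧ γ n ≤ n + 1 ∧ D + 3 ≤ γ n ∧ γ n ≤ T ∧
      ∀ t : ℝ, γ n ≤ t → t ≤ γ n + 1 / (KN D δ T : ℝ) →
        T ^ ((σ - 1 / 2) / 2 - δ) ≤ cmean (XN η T) D (1 / 2 + D - δ) t) →
    (S.card : ℝ) ≤ C * Real.log T * T ^ (2 - 2 * σ + 4 * δ + 4 * η)

/-- [LV] large values of a power of a Dirichlet polynomial on a clustered set (`DH31.large_values` with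
`Pool.Agent.W170.MV.clustered_neg` instead of the mean value theorem) -/
def S_LV : Prop := ∀ (b : ArithmeticFunction ℂ) (N Y m : ℕ) (σ V B H : ℝ), 1 ≤ N → 0 ≤ σ → 0 ≤ V →
  (∀ n, b n ≠ 0 → N ≤ n ∧ n ≤ Y) →
  (∀ n : ℕ, 1 ≤ n → ‖b n‖ ≤ (n.divisors.card : ℝ) * (n : ℝ) ^ (-σ)) →
  (∀ n ∈ Finset.Icc 1 (Y ^ m), (n.divisors.card : ℝ) ^ (2 * m) ≤ B) → 0 < B → 1 ≤ Y → 1 ≤ H →
  ∀ S : Finset ℝ, (∀ t ∈ S, 0 ≤ t ∧ t ≤ H ^ 2) → (∀ t ∈ S, ∀ u ∈ S, t ≠ u → 1 ≤ |t - u|) →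
  (∀ t ∈ S, V ≤ ‖dp (fun n => b n) Y t‖) →
  (S.card : ℝ) * V ^ (2 * m) ≤
    84 * C1 * (1 + Real.log ((Y ^ m : ℕ) : ℝ)) ^ 3 * ((Y ^ m : ℕ) : ℝ) *
      (((Y ^ m : ℕ) : ℝ) + cells H S * (H + Real.sqrt (((Y ^ m : ℕ) : ℝ) * H))) *
      ((((N ^ m : ℕ) : ℝ)) ^ (-(2 * σ)) * B ^ 2)

/-- [BLK] one dyadic piece (as `DH31.block`). Take `m = 2` if `N = 2^j ≥ T^(1/3)`, otherwise
`m = ⌊log T / log N⌋`, so that `T^(2/3) ≤ N^m ≤ T^(1+2κ)`. -/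
def S_BLK : Prop := ∀ κ D δ η : ℝ, 0 < κ → κ ≤ 1 / 12 → 20 / κ ^ 2 ≤ D → 0 < δ → δ ≤ 1 / 12 →
  0 < η → η ≤ 1 / 4 →
  ∃ C T₀ : ℝ, 0 < C ∧ 1 ≤ T₀ ∧ ∀ T : ℝ, T₀ ≤ T → ∀ σ : ℝ, 1 / 2 ≤ σ → σ ≤ 1 →
    ∀ H : ℝ, Real.sqrt T ≤ H → ∀ (k j : ℕ) (S : Finset ℝ), (∀ t ∈ S, 0 ≤ t ∧ t ≤ T + 2) →
    (∀ t ∈ S, ∀ u ∈ S, t ≠ u → 1 ≤ |t - u|) →
    (∀ t ∈ S, 1 / (4 * (KN D δ T : ℝ) ^ 2) ≤
      ‖dp (fun n => bk D σ k (XN η T) (ZN κ T) j n) (2 ^ (j + 1)) t‖) →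
    (S.card : ℝ) ≤ C * T ^ (12 * κ) * (T ^ (2 - 2 * σ) + cells (2 * H) S * QQ T H σ)

/-- [CLI] number of the points of the first class -/
def S_CLI : Prop := ∀ κ D δ η : ℝ, 0 < κ → κ ≤ 1 / 12 → 20 / κ ^ 2 ≤ D → 0 < δ → δ ≤ 1 / 12 →
  0 < η → η ≤ 1 / 4 →
  ∃ C T₀ : ℝ, 0 < C ∧ 1 ≤ T₀ ∧ ∀ T : ℝ, T₀ ≤ T → ∀ σ : ℝ, 1 / 2 ≤ σ → σ ≤ 1 →
    ∀ H : ℝ, Real.sqrt T ≤ H → ∀ S : Finset ℝ, (∀ t ∈ S, 0 ≤ t ∧ t ≤ T + 2) →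
    (∀ t ∈ S, ∀ u ∈ S, t ≠ u → 1 ≤ |t - u|) →
    (∀ t ∈ S, ∃ k < KN D δ T, 1 / (4 * (KN D δ T : ℝ)) ≤
      ‖∑ n ∈ Finset.Ioc (XN η T) (ZN κ T), bc D σ k (XN η T) n * (n : ℂ) ^ (-(t : ℂ) * I)‖) →
    (S.card : ℝ) ≤ C * T ^ (13 * κ) * (T ^ (2 - 2 * σ) + cells (2 * H) S * QQ T H σ)

/-- [ASM] the zeros in a union of cells `[kH, (k+1)H)` -/
def S_ASM : Prop := ∀ ε : ℝ, 0 < ε → ∃ C T₀ : ℝ, 0 < C ∧ ∀ T : ℝ, T₀ ≤ T → ∀ σ : ℝ, 1 / 2 ≤ σ →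
  σ ≤ 1 → ∀ H : ℝ, Real.sqrt T ≤ H → ∀ J : Finset ℕ,
  (cnt {ρ : ℂ | ρ ∈ zeros σ T ∧ ⌊ρ.im / H⌋₊ ∈ J} : ℝ) ≤
    C * T ^ ε * (T ^ (2 * (1 - σ)) + J.card * QQ T H σ)

/-- [UNI] the zeros in a union of arbitrary intervals of length `H` -/
def S_UNI : Prop := ∀ ε : ℝ, 0 < ε → ∃ C T₀ : ℝ, 0 < C ∧ ∀ T : ℝ, T₀ ≤ T → ∀ σ : ℝ, 1 / 2 ≤ σ →
  σ ≤ 1 → ∀ H : ℝ, Real.sqrt T ≤ H → ∀ A : Finset ℝ,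
  (cnt {ρ : ℂ | ρ ∈ zeros σ T ∧ ∃ u ∈ A, u ≤ ρ.im ∧ ρ.im ≤ u + H} : ℝ) ≤
    C * T ^ ε * (T ^ (2 * (1 - σ)) + A.card * QQ T H σ)

/-- [QH] -/
def S_QH : Prop := ∀ T H σ : ℝ, 1 ≤ T → Real.sqrt T ≤ H → H ≤ T ^ (2 / 3 : ℝ) → 3 / 4 ≤ σ → σ ≤ 1 →
  QQ T H σ ≤ 3 * H ^ (2 * (1 - σ))

/-- [RICH] the density hypothesis for the zeros with many neighbours -/
def S_RICH : Prop := ∀ ε : ℝ, 0 < ε → ∃ C T₀ : ℝ, 0 < C ∧ ∀ T : ℝ, T₀ ≤ T → ∀ σ : ℝ, 1 / 2 ≤ σ →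
  σ ≤ 1 → ∀ H : ℝ, Real.sqrt T ≤ H →
  (cnt {ρ : ℂ | ρ ∈ zeros σ T ∧ T ^ ε * QQ T H σ ≤
      (cnt {s : ℂ | s ∈ zeros σ T ∧ |s.im - ρ.im| ≤ H} : ℝ)} : ℝ) ≤
    C * T ^ (2 * (1 - σ) + ε)

end Pool.Agent.Helper32K9.RD
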