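import Pool.Agent.Helper32K9.RD.St

/-! # Leaf UNI: unions of arbitrary intervals of length `H` -/

set_option autoImplicit false

namespace Pool.Agent.Helper32K9.RD

open Complex Metric MeasureTheory Set Filter Topology DH31

namespace UniL

theorem QQ_nonneg {T H : ℝ} (hT : 0 ≤ T) (hH : 0 ≤ H) (σ : ℝ) : 0 ≤ QQ T H σ := by
  unfold QQ
  have h1 := Real.rpow_nonneg hT (2 / 3 * (1 - 2 * σ))
  have h2 := Real.rpow_nonneg hT (1 - 4 * σ / 3)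
  have h3 := Real.rpow_nonneg hT (3 / 2 - 2 * σ)
  have h4 := Real.sqrt_nonneg H
  positivity

/-- the cells which meet an interval -/
theorem cell_mem {H u y : ℝ} (hH : 0 < H) (h1 : u ≤ y) (h2 : y ≤ u + H) :
    ⌊y / H⌋₊ = ⌊u / H⌋₊ ∨ ⌊y / H⌋₊ = ⌊u / H⌋₊ + 1 := by
  have h3 : ⌊u / H⌋₊ ≤ ⌊y / H⌋₊ := Nat.floor_mono (div_le_div_of_nonneg_right h1 hH.le)
  have h4 : ⌊y / H⌋₊ ≤ ⌊u / H⌋₊ + 1 := by
    have h5 : y / H ≤ u / H + 1 := by
      rw [div_add_one hH.ne', div_le_div_iff_of_pos_right hH]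
      exact h2
    rcases le_or_gt 0 (u / H) with h6 | h6
    · rw [← Nat.floor_add_one h6]
      exact Nat.floor_mono h5
    · have h7 : ⌊y / H⌋₊ ≤ 0 := by
        refine Nat.le_zero.mpr (Nat.floor_eq_zero.mpr ?_)
        linarith
      omega
  omega

end UniL

open UniL in
/-- **UNI** -/
theorem uni (asm : S_ASM) : S_UNI := by
  classical
  intro ε hε
  obtain ⟨C, T₀, hC, h⟩ := asm ε hε
  refine ⟨2 * C, max T₀ 1, by positivity, fun T hT σ h1 h2 H hH A => ?_⟩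
  have hT1 : 1 ≤ T := (le_max_right _ _).trans hT
  have hT0 : (0 : ℝ) < T := by linarith
  have hH0 : 0 < H := lt_of_lt_of_le (Real.sqrt_pos.mpr hT0) hH
  set J : Finset ℕ := A.image (fun u => ⌊u / H⌋₊) ∪ A.image (fun u => ⌊u / H⌋₊ + 1) with hJ
  have hcard : (J.card : ℝ) ≤ 2 * A.card := by
    have h3 : J.card ≤ A.card + A.card :=
      (Finset.card_union_le _ _).trans (add_le_add Finset.card_image_le Finset.card_image_le)
    have h4 : (J.card : ℝ) ≤ (A.card + A.card : ℕ) := by exact_mod_cast h3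
    push_cast at h4
    linarith
  have hfin : {ρ : ℂ | ρ ∈ zeros σ T ∧ ⌊ρ.im / H⌋₊ ∈ J}.Finite :=
    (zeros_finite σ T).subset fun ρ hρ => hρ.1
  have hsub : {ρ : ℂ | ρ ∈ zeros σ T ∧ ∃ u ∈ A, u ≤ ρ.im ∧ ρ.im ≤ u + H} ⊆
      {ρ : ℂ | ρ ∈ zeros σ T ∧ ⌊ρ.im / H⌋₊ ∈ J} := by
    rintro ρ ⟨hρ, u, hu, hu1, hu2⟩
    refine ⟨hρ, ?_⟩
    rw [hJ, Finset.mem_union, Finset.mem_image, Finset.mem_image]
    rcases cell_mem hH0 hu1 hu2 with h3 | h3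
    · exact Or.inl ⟨u, hu, h3.symm⟩
    · exact Or.inr ⟨u, hu, h3.symm⟩
  have h3 := h T ((le_max_left _ _).trans hT) σ h1 h2 H hH J
  have h4 : (cnt {ρ : ℂ | ρ ∈ zeros σ T ∧ ∃ u ∈ A, u ≤ ρ.im ∧ ρ.im ≤ u + H} : ℝ) ≤
      cnt {ρ : ℂ | ρ ∈ zeros σ T ∧ ⌊ρ.im / H⌋₊ ∈ J} := by
    exact_mod_cast cnt_mono hfin hsub
  have hQ := QQ_nonneg hT0.le hH0.le σ
  have hTe : (0 : ℝ) < T ^ ε := Real.rpow_pos_of_pos hT0 _
  have hTs : (0 : ℝ) < T ^ (2 * (1 - σ)) := Real.rpow_pos_of_pos hT0 _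
  refine h4.trans (h3.trans ?_)
  have h5 : T ^ (2 * (1 - σ)) + J.card * QQ T H σ ≤
      2 * (T ^ (2 * (1 - σ)) + A.card * QQ T H σ) := by
    have h6 := mul_le_mul_of_nonneg_right hcard hQ
    have h7 : (0 : ℝ) ≤ A.card * QQ T H σ := by positivity
    linarith
  calc C * T ^ ε * (T ^ (2 * (1 - σ)) + J.card * QQ T H σ)
      ≤ C * T ^ ε * (2 * (T ^ (2 * (1 - σ)) + A.card * QQ T H σ)) :=
        mul_le_mul_of_nonneg_left h5 (by positivity)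
    _ = _ := by ring

end Pool.Agent.Helper32K9.RD
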